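import Pool.Agent.helper96.P2.UFAV

set_option autoImplicit false

namespace Pool.Agent.P2U

open MeasureTheory Set Filter Topology Metric Complex
open scoped ENNReal ContDiff

/-- a power series with bounded terms -/
theorem UMEA_series (a : ℕ → ℂ) (r0 : ℝ) (h : ∀ ρ : ℝ, 0 < ρ → ρ < r0 → ∃ M : ℝ, ∀ k : ℕ, ‖a k‖ * ρ ^ k ≤ M) :
    DifferentiableOn ℂ (fun w => ∑' k : ℕ, a k * w ^ k) (ball 0 r0) ∧
      ∀ w ∈ ball (0 : ℂ) r0, Summable (fun k : ℕ => a k * w ^ k) := by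
  have key : ∀ w ∈ ball (0 : ℂ) r0, ∃ ρ1 : ℝ, w ∈ ball (0 : ℂ) ρ1 ∧ ∃ u : ℕ → ℝ, Summable u ∧
      ∀ k : ℕ, ∀ z ∈ ball (0 : ℂ) ρ1, ‖a k * z ^ k‖ ≤ u k := by
    intro w hw
    rw [mem_ball_zero_iff] at hw
    obtain ⟨ρ1, h1, h2⟩ := exists_between hw
    obtain ⟨ρ2, h3, h4⟩ := exists_between h2
    have h0 : 0 ≤ ‖w‖ := norm_nonneg w
    have hρ1 : 0 < ρ1 := lt_of_le_of_lt h0 h1
    have hρ2 : 0 < ρ2 := hρ1.trans h3
    obtain ⟨M, hM⟩ := h ρ2 hρ2 h4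
    refine ⟨ρ1, by rw [mem_ball_zero_iff]; exact h1, fun k => M * (ρ1 / ρ2) ^ k, ?_, ?_⟩
    · exact (summable_geometric_of_lt_one (by positivity) ((div_lt_one hρ2).2 h3)).mul_left M
    · intro k z hz
      rw [mem_ball_zero_iff] at hz
      have hz0 : 0 ≤ ‖z‖ := norm_nonneg z
      rw [norm_mul, norm_pow]
      have e1 : ‖z‖ ^ k ≤ ρ1 ^ k := pow_le_pow_left₀ hz0 hz.le k
      have e2 : ρ1 ^ k = ρ2 ^ k * (ρ1 / ρ2) ^ k := by
        rw [← mul_pow]
        congr 1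
        field_simp
      calc ‖a k‖ * ‖z‖ ^ k ≤ ‖a k‖ * ρ1 ^ k := mul_le_mul_of_nonneg_left e1 (norm_nonneg _)
        _ = (‖a k‖ * ρ2 ^ k) * (ρ1 / ρ2) ^ k := by rw [e2]; ring
        _ ≤ M * (ρ1 / ρ2) ^ k := mul_le_mul_of_nonneg_right (hM k) (by positivity)
  refine ⟨?_, ?_⟩
  · intro w hw
    obtain ⟨ρ1, h1, u, hu, hb⟩ := key w hw
    have h2 : DifferentiableOn ℂ (fun w => ∑' k : ℕ, a k * w ^ k) (ball 0 ρ1) :=
      differentiableOn_tsum_of_summable_norm hu (fun k => by fun_prop) isOpen_ball hb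
    exact ((h2 w h1).differentiableAt (isOpen_ball.mem_nhds h1)).differentiableWithinAt
  · intro w hw
    obtain ⟨ρ1, h1, u, hu, hb⟩ := key w hw
    exact Summable.of_norm_bounded hu (fun k => hb k w h1)

/-- chain rule along a graph -/
theorem UMEA_chain {f : ℂ × ℂ → ℂ} {X : ℂ → ℂ} {w X' : ℂ} (hf : DifferentiableAt ℂ f (X w, w)) (hX : HasDerivAt X X' w) :
    HasDerivAt (fun z => f (X z, z)) (dx f (X w, w) * X' + dv f (X w, w)) w := by
  have h1 : HasDerivAt (fun z : ℂ => (X z, z)) (X', 1) w := hX.prodMk (hasDerivAt_id w)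
  obtain ⟨G, hG⟩ : ∃ G : ℂ → ℂ × ℂ, G = fun z : ℂ => (X z, z) := ⟨_, rfl⟩
  rw [← hG] at h1
  have hGw : G w = (X w, w) := by rw [hG]
  have hf' : HasFDerivAt f (fderiv ℂ f (X w, w)) (G w) := by
    rw [hGw]
    exact hf.hasFDerivAt
  have h2 := hf'.comp_hasDerivAt w h1
  rw [hG] at h2
  have e : fderiv ℂ f (X w, w) (X', 1) = dx f (X w, w) * X' + dv f (X w, w) := by
    have e1 : ((X', 1) : ℂ × ℂ) = X' • ((1, 0) : ℂ × ℂ) + ((0, 1) : ℂ × ℂ) := by
      simp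
    rw [e1, map_add, map_smul]
    unfold dx dv
    rw [smul_eq_mul, mul_comm]
  rw [← e]
  exact h2

/-- the slope of a branch -/
theorem UMEA_slope {P Q : ℂ × ℂ → ℂ} {r R : ℝ} (h : Hol P Q 2 r) {q0 : ℂ × ℂ} (hq0 : q0 ∈ TB 2 r) {X : ℂ → ℂ}
    (hX : DifferentiableOn ℂ X (ball 0 R)) (he : ∀ w ∈ ball (0 : ℂ) R, P (X w, w) * Q q0 = Q (X w, w) * P q0)
    {w : ℂ} (hw : w ∈ ball (0 : ℂ) R) (hT : (X w, w) ∈ TB 2 r) (hc : cx P Q (X w, w) ≠ 0) :
    HasDerivAt X (- (cv P Q (X w, w) / cx P Q (X w, w))) w := by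
  have hd : HasDerivAt X (deriv X w) w := ((hX w hw).differentiableAt (isOpen_ball.mem_nhds hw)).hasDerivAt
  have hP := UMEA_chain (h.hP _ hT).differentiableAt hd
  have hQ := UMEA_chain (h.hQ _ hT).differentiableAt hd
  have h1 : HasDerivAt (fun z => P (X z, z) * Q q0) ((dx P (X w, w) * deriv X w + dv P (X w, w)) * Q q0) w :=
    hP.mul_const _
  have h2 : HasDerivAt (fun z => Q (X z, z) * P q0) ((dx Q (X w, w) * deriv X w + dv Q (X w, w)) * P q0) w :=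
    hQ.mul_const _
  have h3 : (fun z => P (X z, z) * Q q0) =ᶠ[𝓝 w] (fun z => Q (X z, z) * P q0) := by
    filter_upwards [isOpen_ball.mem_nhds hw] with z hz
    exact he z hz
  have h4 := h1.unique (h2.congr_of_eventuallyEq h3)
  have h5 := he w hw
  have h6 : cx P Q (X w, w) * deriv X w + cv P Q (X w, w) = 0 := by
    rcases h.ne q0 hq0 with h7 | h7
    · apply mul_left_cancel₀ h7
      rw [mul_zero]
      unfold cx cv
      linear_combination (P (X w, w)) * h4 - (dx P (X w, w) * deriv X w + dv P (X w, w)) * h5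
    · apply mul_left_cancel₀ h7
      rw [mul_zero]
      unfold cx cv
      linear_combination (Q (X w, w)) * h4 - (dx Q (X w, w) * deriv X w + dv Q (X w, w)) * h5
  have h8 : deriv X w = - (cv P Q (X w, w) / cx P Q (X w, w)) := by
    rw [← neg_div, eq_div_iff hc]
    linear_combination h6
  rw [← h8]
  exact hd

/-- the derivatives of the branches as functions on the plane -/
noncomputable def UMEA_V (P Q : ℂ × ℂ → ℂ) : ℕ → ℂ × ℂ → ℂ
  | 0 => fun q => q.1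
  | (k + 1) => fun q => dv (UMEA_V P Q k) q - cv P Q q / cx P Q q * dx (UMEA_V P Q k) q

theorem UMEA_anV {P Q : ℂ × ℂ → ℂ} {r : ℝ} (h : Hol P Q 2 r) (k : ℕ) :
    AnalyticOnNhd ℂ (UMEA_V P Q k) {q | q ∈ TB 2 r ∧ cx P Q q ≠ 0} := by
  have hsub : {q | q ∈ TB 2 r ∧ cx P Q q ≠ 0} ⊆ TB 2 r := fun q hq => hq.1
  induction k with
  | zero => exact fun q _ => analyticAt_fst
  | succ k ih =>
    have h1 : AnalyticOnNhd ℂ (fun q => cv P Q q / cx P Q q) {q | q ∈ TB 2 r ∧ cx P Q q ≠ 0} :=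
      ((UFAV_cv h).mono hsub).div ((UFAV_cx h).mono hsub) (fun q hq => hq.2)
    exact (UFAV_dv ih).sub (h1.mul (UFAV_dx ih))

theorem UMEA_opO {P Q : ℂ × ℂ → ℂ} {r : ℝ} (h : Hol P Q 2 r) : IsOpen {q | q ∈ TB 2 r ∧ cx P Q q ≠ 0} :=
  (UFAV_cx h).continuousOn.isOpen_inter_preimage (UFAV_isOpen 2 r) isOpen_compl_singleton

/-- all derivatives of a branch -/
theorem UMEA_iter {P Q : ℂ × ℂ → ℂ} {r R : ℝ} (h : Hol P Q 2 r) {q0 : ℂ × ℂ} (hq0 : q0 ∈ TB 2 r) {X : ℂ → ℂ}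
    (hX : DifferentiableOn ℂ X (ball 0 R)) (he : ∀ w ∈ ball (0 : ℂ) R, P (X w, w) * Q q0 = Q (X w, w) * P q0) (k : ℕ) :
    ∀ w ∈ ball (0 : ℂ) R, (X w, w) ∈ TB 2 r → cx P Q (X w, w) ≠ 0 → iteratedDeriv k X w = UMEA_V P Q k (X w, w) := by
  have hopen : IsOpen (ball (0 : ℂ) R ∩ (fun w => (X w, w)) ⁻¹' {q | q ∈ TB 2 r ∧ cx P Q q ≠ 0}) :=
    (hX.continuousOn.prodMk continuousOn_id).isOpen_inter_preimage isOpen_ball (UMEA_opO h)
  induction k with
  | zero =>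
    intro w _ _ _
    rw [iteratedDeriv_zero]
    rfl
  | succ k ih =>
    intro w hw hT hc
    rw [iteratedDeriv_succ]
    have h1 : iteratedDeriv k X =ᶠ[𝓝 w] fun z => UMEA_V P Q k (X z, z) := by
      filter_upwards [hopen.mem_nhds ⟨hw, hT, hc⟩] with z hz
      exact ih z hz.1 hz.2.1 hz.2.2
    rw [h1.deriv_eq]
    have h2 := UMEA_slope h hq0 hX he hw hT hc
    have h3 := UMEA_chain (UMEA_anV h k _ ⟨hT, hc⟩).differentiableAt h2
    rw [h3.deriv]
    show _ = dv (UMEA_V P Q k) (X w, w) - cv P Q (X w, w) / cx P Q (X w, w) * dx (UMEA_V P Q k) (X w, w)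
    ring

/-- the Taylor coefficients -/
noncomputable def UMEA_a (P Q : ℂ × ℂ → ℂ) (k : ℕ) (x : ℂ) : ℂ := ((k.factorial : ℕ) : ℂ)⁻¹ * UMEA_V P Q k (x, 0)

theorem UMEA_taylor {P Q : ℂ × ℂ → ℂ} {r R : ℝ} (h : Hol P Q 2 r) {x0 : ℂ} (hq0 : (x0, (0 : ℂ)) ∈ TB 2 r) {X : ℂ → ℂ}
    (hX : DifferentiableOn ℂ X (ball 0 R)) (hR : 0 < R) (h0 : X 0 = x0) (hc : cx P Q (x0, 0) ≠ 0)
    (he : ∀ w ∈ ball (0 : ℂ) R, P (X w, w) * Q (x0, 0) = Q (X w, w) * P (x0, 0)) :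
    ∀ w ∈ ball (0 : ℂ) R, HasSum (fun k => UMEA_a P Q k x0 * w ^ k) (X w) := by
  intro w hw
  have h1 := Complex.hasSum_taylorSeries_on_ball hX hw
  have h2 : (fun n : ℕ ↦ ((n.factorial : ℕ) : ℂ)⁻¹ • (w - 0) ^ n • iteratedDeriv n X 0) = fun k => UMEA_a P Q k x0 * w ^ k := by
    funext n
    rw [UMEA_iter h hq0 hX he n 0 (mem_ball_self hR) (by rw [h0]; exact hq0) (by rw [h0]; exact hc), h0]
    unfold UMEA_a
    simp only [smul_eq_mul, sub_zero]
    ring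
  rw [h2] at h1
  exact h1

/-- the condition on the coefficients -/
def UMEA_C (r0 : ℝ) (a : ℕ → ℂ) : Prop :=
  (∀ j : ℕ, ∃ M : ℕ, ∀ k : ℕ, ‖a k‖ * (r0 * (1 - 1 / ((j : ℝ) + 2))) ^ k ≤ M) ∧
  ∀ i : ℕ, TopologicalSpace.denseSeq ℂ i ∈ ball (0 : ℂ) r0 → ∀ m : ℕ, ∃ n0 : ℕ, ∀ n : ℕ, n0 ≤ n →
    ‖∑ k ∈ Finset.range n, a k * (TopologicalSpace.denseSeq ℂ i) ^ k‖ ≤ 1 + 1 / ((m : ℝ) + 1)

theorem UMEA_iff (hGRF : UGRF_stmt) {P Q : ℂ × ℂ → ℂ} {r r0 : ℝ} (h : Hol P Q 2 r) (hr0 : 0 < r0) (hr : r0 ≤ r) {x0 : ℂ}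
    (hx0 : ‖x0‖ < 1 / 2) (hc : cx P Q (x0, 0) ≠ 0) : Unf P Q r0 x0 ↔ UMEA_C r0 (fun k => UMEA_a P Q k x0) := by
  have hq0 : (x0, (0 : ℂ)) ∈ TB 2 r := by
    refine ⟨?_, ?_⟩
    · show ‖x0‖ < 2
      linarith
    · show ‖(0 : ℂ)‖ < r
      rw [norm_zero]
      linarith
  constructor
  · rintro ⟨X, hX⟩
    have hs := UMEA_taylor h hq0 hX.an hr0 hX.ini hc hX.eq
    refine ⟨?_, ?_⟩
    · intro j
      set ρ : ℝ := r0 * (1 - 1 / ((j : ℝ) + 2)) with hρ
      have hj : (0 : ℝ) < (j : ℝ) + 2 := by positivity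
      have h1 : 0 < 1 / ((j : ℝ) + 2) := by positivity
      have h2 : 1 / ((j : ℝ) + 2) ≤ 1 / 2 := by
        apply one_div_le_one_div_of_le (by norm_num)
        have : (0 : ℝ) ≤ (j : ℝ) := Nat.cast_nonneg j
        linarith
      have h3 : 0 < ρ := mul_pos hr0 (by linarith)
      have h4 : ρ < r0 := by
        rw [hρ]
        nlinarith
      have h5 : (ρ : ℂ) ∈ ball (0 : ℂ) r0 := by
        rw [mem_ball_zero_iff, Complex.norm_real, Real.norm_of_nonneg h3.le]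
        exact h4
      have h6 := (hs _ h5).summable.tendsto_atTop_zero
      have h7 := h6.norm
      rw [norm_zero] at h7
      obtain ⟨M, hM⟩ := h7.bddAbove_range
      obtain ⟨M', hM'⟩ := exists_nat_ge M
      refine ⟨M', fun k => ?_⟩
      have h8 := hM (Set.mem_range_self k)
      simp only [norm_mul, norm_pow, Complex.norm_real, Real.norm_of_nonneg h3.le] at h8
      linarith
    · intro i hi m
      have h1 := (hs _ hi).tendsto_sum_nat
      have h2 := h1.norm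
      have h3 : ‖X (TopologicalSpace.denseSeq ℂ i)‖ < 1 + 1 / ((m : ℝ) + 1) := by
        have h4 := hX.lt _ hi
        have h5 : (0 : ℝ) < 1 / ((m : ℝ) + 1) := by positivity
        linarith
      have h6 := (h2.eventually (gt_mem_nhds h3))
      obtain ⟨n0, hn0⟩ := Filter.eventually_atTop.1 h6
      exact ⟨n0, fun n hn => (hn0 n hn).le⟩
  · rintro ⟨hA, hB⟩
    set a : ℕ → ℂ := fun k => UMEA_a P Q k x0 with ha
    have hbd : ∀ ρ : ℝ, 0 < ρ → ρ < r0 → ∃ M : ℝ, ∀ k : ℕ, ‖a k‖ * ρ ^ k ≤ M := by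
      intro ρ h1 h2
      obtain ⟨j, hj⟩ := exists_nat_gt (r0 / (r0 - ρ))
      obtain ⟨M, hM⟩ := hA j
      refine ⟨M, fun k => ?_⟩
      have h3 : ρ ≤ r0 * (1 - 1 / ((j : ℝ) + 2)) := by
        have h4 : 0 < r0 - ρ := by linarith
        have h5 : r0 / (r0 - ρ) < (j : ℝ) + 2 := by linarith
        have h6 : r0 / ((j : ℝ) + 2) < r0 - ρ := by
          rw [div_lt_iff₀ (by positivity)]
          rw [div_lt_iff₀ h4] at h5
          linarith
        have h7 : r0 * (1 - 1 / ((j : ℝ) + 2)) = r0 - r0 / ((j : ℝ) + 2) := by ring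
        rw [h7]
        linarith
      calc ‖a k‖ * ρ ^ k ≤ ‖a k‖ * (r0 * (1 - 1 / ((j : ℝ) + 2))) ^ k :=
            mul_le_mul_of_nonneg_left (pow_le_pow_left₀ h1.le h3 k) (norm_nonneg _)
        _ ≤ M := hM k
    obtain ⟨hfd, hfs⟩ := UMEA_series a r0 hbd
    set f : ℂ → ℂ := fun w => ∑' k : ℕ, a k * w ^ k with hf
    obtain ⟨ε, δ, -, -, hδ, Y, hYb, hYd, hY0, hYm, hYe⟩ := hGRF P Q r h (x0, 0) hq0 hc 1 one_pos
    have hYd' : DifferentiableOn ℂ Y (ball 0 δ) := hYd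
    have hY0' : Y 0 = x0 := hY0
    have hYeq : ∀ w ∈ ball (0 : ℂ) δ, P (Y w, w) * Q (x0, 0) = Q (Y w, w) * P (x0, 0) := fun w hw =>
      (hYe (Y w) (hYm w hw) w hw).2 rfl
    have hYs := UMEA_taylor h hq0 hYd' hδ hY0' hc hYeq
    have hfY : ∀ w ∈ ball (0 : ℂ) δ, f w = Y w := fun w hw => (hYs w hw).tsum_eq
    have hf0 : f 0 = x0 := by rw [hfY 0 (mem_ball_self hδ), hY0']
    have hcont : ContinuousOn f (ball 0 r0) := hfd.continuousOn
    have hle : ∀ w ∈ ball (0 : ℂ) r0, ‖f w‖ ≤ 1 := by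
      intro w hw
      by_contra hgt
      push Not at hgt
      have hopen : IsOpen (ball (0 : ℂ) r0 ∩ (fun z => ‖f z‖) ⁻¹' Ioi 1) :=
        hcont.norm.isOpen_inter_preimage isOpen_ball isOpen_Ioi
      obtain ⟨z, hz, i, rfl⟩ := (TopologicalSpace.denseRange_denseSeq ℂ).inter_open_nonempty _ hopen ⟨w, hw, hgt⟩
      have h1 := ((hfs _ hz.1).hasSum.tendsto_sum_nat).norm
      have h2 : ∀ m : ℕ, ‖f (TopologicalSpace.denseSeq ℂ i)‖ ≤ 1 + 1 / ((m : ℝ) + 1) := by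
        intro m
        obtain ⟨n0, hn0⟩ := hB i hz.1 m
        refine le_of_tendsto h1 ?_
        filter_upwards [Filter.eventually_ge_atTop n0] with n hn
        exact hn0 n hn
      have h3 : 1 < ‖f (TopologicalSpace.denseSeq ℂ i)‖ := hz.2
      obtain ⟨m, hm⟩ := exists_nat_one_div_lt (sub_pos.2 h3)
      have := h2 m
      linarith
    have hT : ∀ w ∈ ball (0 : ℂ) r0, (f w, w) ∈ TB 2 r := by
      intro w hw
      refine ⟨?_, ?_⟩
      · show ‖f w‖ < 2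
        linarith [hle w hw]
      · show ‖w‖ < r
        rw [mem_ball_zero_iff] at hw
        linarith
    have hG : AnalyticOnNhd ℂ (fun w => P (f w, w) * Q (x0, 0) - Q (f w, w) * P (x0, 0)) (ball 0 r0) := by
      apply DifferentiableOn.analyticOnNhd _ isOpen_ball
      intro w hw
      have h1 : HasDerivAt f (deriv f w) w := ((hfd w hw).differentiableAt (isOpen_ball.mem_nhds hw)).hasDerivAt
      have h2 := UMEA_chain (h.hP _ (hT w hw)).differentiableAt h1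
      have h3 := UMEA_chain (h.hQ _ (hT w hw)).differentiableAt h1
      exact ((h2.mul_const _).sub (h3.mul_const _)).differentiableAt.differentiableWithinAt
    have hG0 : (fun w => P (f w, w) * Q (x0, 0) - Q (f w, w) * P (x0, 0)) =ᶠ[𝓝 0] 0 := by
      filter_upwards [isOpen_ball.mem_nhds (mem_ball_self hδ)] with w hw
      show P (f w, w) * Q (x0, 0) - Q (f w, w) * P (x0, 0) = 0
      rw [hfY w hw, hYeq w hw, sub_self]
    have hGe := hG.eqOn_zero_of_preconnected_of_eventuallyEq_zero (convex_ball (0 : ℂ) r0).isPreconnected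
      (mem_ball_self hr0) hG0
    refine ⟨f, hfd, hf0, ?_, ?_⟩
    · intro w hw
      by_contra hge
      push Not at hge
      have h1 : ‖f w‖ = 1 := le_antisymm (hle w hw) hge
      have h2 : IsMaxOn (norm ∘ f) (ball 0 r0) w := by
        intro z hz
        show ‖f z‖ ≤ ‖f w‖
        rw [h1]
        exact hle z hz
      have h3 := Complex.norm_eqOn_of_isPreconnected_of_isMaxOn (convex_ball (0 : ℂ) r0).isPreconnected isOpen_ball hfd hw h2
        (mem_ball_self hr0)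
      have h4 : ‖f 0‖ = ‖f w‖ := h3
      rw [hf0, h1] at h4
      linarith
    · intro w hw
      have h1 := hGe hw
      exact sub_eq_zero.1 h1

/-- UMEA: measurability -/
theorem UMEA (hGRF : UGRF_stmt) : UMEA_stmt := by
  intro P Q r r0 h hr0 hr
  classical
  set O0 : Set ℂ := {x : ℂ | ‖x‖ < 1 / 2 ∧ cx P Q (x, 0) ≠ 0} with hO0
  have hrpos : 0 < r := hr0.trans_le hr
  have hcont0 : Continuous (fun x : ℂ => (x, (0 : ℂ))) := by fun_prop
  have hO0e : O0 = ball (0 : ℂ) (1 / 2) ∩ (fun x : ℂ => (x, (0 : ℂ))) ⁻¹' {q | q ∈ TB 2 r ∧ cx P Q q ≠ 0} := by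
    ext x
    constructor
    · rintro ⟨h1, h2⟩
      refine ⟨by rw [mem_ball_zero_iff]; exact h1, ⟨?_, ?_⟩, h2⟩
      · show ‖x‖ < 2
        linarith
      · show ‖(0 : ℂ)‖ < r
        rw [norm_zero]
        exact hrpos
    · rintro ⟨h1, h2, h3⟩
      rw [mem_ball_zero_iff] at h1
      exact ⟨h1, h3⟩
  have hO0o : IsOpen O0 := by
    rw [hO0e]
    exact isOpen_ball.inter ((UMEA_opO h).preimage hcont0)
  have hac : ∀ k : ℕ, ContinuousOn (UMEA_a P Q k) O0 := by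
    intro k
    have h1 : ContinuousOn (fun x : ℂ => UMEA_V P Q k (x, 0)) O0 := by
      refine (UMEA_anV h k).continuousOn.comp hcont0.continuousOn ?_
      intro x hx
      rw [hO0e] at hx
      exact hx.2
    exact continuousOn_const.mul h1
  set b : ℕ → ℂ → ℂ := fun k => O0.piecewise (UMEA_a P Q k) (fun _ => 0) with hb
  have hbm : ∀ k : ℕ, Measurable (b k) := fun k =>
    (hac k).measurable_piecewise continuousOn_const hO0o.measurableSet
  have hbe : ∀ k : ℕ, ∀ x ∈ O0, b k x = UMEA_a P Q k x := fun k x hx => Set.piecewise_eq_of_mem _ _ _ hx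
  have hN : NN P Q r0 = O0 ∩ {x | UMEA_C r0 (fun k => b k x)}ᶜ := by
    ext x
    have key : x ∈ O0 → (Unf P Q r0 x ↔ UMEA_C r0 (fun k => b k x)) := by
      intro hx
      have h1 := UMEA_iff hGRF h hr0 hr hx.1 hx.2
      have h2 : (fun k => b k x) = fun k => UMEA_a P Q k x := funext fun k => hbe k x hx
      rw [h2]
      exact h1
    constructor
    · rintro ⟨h1, h2, h3⟩
      exact ⟨⟨h1, h2⟩, fun h4 => h3 ((key ⟨h1, h2⟩).2 h4)⟩
    · rintro ⟨h1, h2⟩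
      exact ⟨h1.1, h1.2, fun h4 => h2 ((key h1).1 h4)⟩
  rw [hN]
  refine hO0o.measurableSet.inter (MeasurableSet.compl ?_)
  have hset : {x | UMEA_C r0 (fun k => b k x)} =
      (⋂ j : ℕ, ⋃ M : ℕ, ⋂ k : ℕ, {x | ‖b k x‖ * (r0 * (1 - 1 / ((j : ℝ) + 2))) ^ k ≤ (M : ℝ)}) ∩
      ⋂ i : ℕ, ⋂ (_ : TopologicalSpace.denseSeq ℂ i ∈ ball (0 : ℂ) r0), ⋂ m : ℕ, ⋃ n0 : ℕ, ⋂ n : ℕ, ⋂ (_ : n0 ≤ n),
        {x | ‖∑ k ∈ Finset.range n, b k x * (TopologicalSpace.denseSeq ℂ i) ^ k‖ ≤ 1 + 1 / ((m : ℝ) + 1)} := by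
    ext x
    simp only [Set.mem_inter_iff, Set.mem_iInter, Set.mem_iUnion]
    exact Iff.rfl
  rw [hset]
  refine MeasurableSet.inter ?_ ?_
  · refine MeasurableSet.iInter fun j => MeasurableSet.iUnion fun M => MeasurableSet.iInter fun k => ?_
    exact measurableSet_le ((hbm k).norm.mul_const _) measurable_const
  · refine MeasurableSet.iInter fun i => MeasurableSet.iInter fun _ => MeasurableSet.iInter fun m =>
      MeasurableSet.iUnion fun n0 => MeasurableSet.iInter fun n => MeasurableSet.iInter fun _ => ?_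
    refine measurableSet_le (Measurable.norm ?_) measurable_const
    exact Finset.measurable_fun_sum _ fun k _ => (hbm k).mul_const _

end Pool.Agent.P2U
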