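import Pool.Agent.helper56.P2.SpecU

set_option autoImplicit false

namespace Pool.Agent.P2U

section areasec

open scoped Matrix ComplexConjugate Classical ENNReal Topology NNReal
open Filter MeasureTheory



variable {E : Type} [NormedAddCommGroup E] [NormedSpace ℝ E] [FiniteDimensional ℝ E]
  [MeasurableSpace E] [BorelSpace E]

/-- a small number for every linear map -/
theorem UFAV_rad (A : E →L[ℝ] E) : ∃ r : ℝ≥0, r ≠ 0 ∧ ∀ B : E ≃L[ℝ] E, (B : E →L[ℝ] E) = A →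
    (Subsingleton E ∨ r < ‖(B.symm : E →L[ℝ] E)‖₊⁻¹) := by
  rcases subsingleton_or_nontrivial E with h | h
  · exact ⟨1, one_ne_zero, fun _ _ => Or.inl h⟩
  · by_cases hB : ∃ B : E ≃L[ℝ] E, (B : E →L[ℝ] E) = A
    · obtain ⟨B, hB⟩ := hB
      have hpos : 0 < ‖(B.symm : E →L[ℝ] E)‖₊ := B.nnnorm_symm_pos
      have hpos' : 0 < ‖(B.symm : E →L[ℝ] E)‖₊⁻¹ := inv_pos.2 hpos
      refine ⟨‖(B.symm : E →L[ℝ] E)‖₊⁻¹ / 2, (half_pos hpos').ne', fun B' hB' => Or.inr ?_⟩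
      have : B' = B := ContinuousLinearEquiv.coe_injective (hB'.trans hB.symm)
      rw [this]
      exact NNReal.half_lt_self hpos'.ne'
    · exact ⟨1, one_ne_zero, fun B hB' => absurd ⟨B, hB'⟩ hB⟩

/-- the number of preimages -/
theorem UFAV_card (F : E → E) (S : Set E) (t : ℕ → Set E) (hd : Pairwise (Function.onFun Disjoint t))
    (hS : S ⊆ ⋃ n, t n) (hinj : ∀ n, Set.InjOn F (S ∩ t n)) (y : E) :
    ∑' n, (F '' (S ∩ t n)).indicator (fun _ => (1 : ℝ≥0∞)) y =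
      (({c ∈ S | F c = y}.encard : ℕ∞) : ℝ≥0∞) := by
  -- the index of a preimage
  have hex : ∀ c, ∃ n, c ∈ S → c ∈ t n := by
    intro c
    by_cases hc : c ∈ S
    · obtain ⟨n, hn⟩ := Set.mem_iUnion.1 (hS hc)
      exact ⟨n, fun _ => hn⟩
    · exact ⟨0, fun h => absurd h hc⟩
  choose ι hι using hex
  have hιinj : Set.InjOn ι {c ∈ S | F c = y} := by
    rintro c ⟨hc, hcy⟩ c' ⟨hc', hcy'⟩ h
    have h1 := hι c hc
    have h2 := hι c' hc'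
    rw [← h] at h2
    exact hinj (ι c) ⟨hc, h1⟩ ⟨hc', h2⟩ (hcy.trans hcy'.symm)
  have himage : ι '' {c ∈ S | F c = y} = {n | y ∈ F '' (S ∩ t n)} := by
    ext n
    constructor
    · rintro ⟨c, ⟨hc, hcy⟩, rfl⟩
      exact ⟨c, ⟨hc, hι c hc⟩, hcy⟩
    · rintro ⟨c, ⟨hc, hct⟩, hcy⟩
      refine ⟨c, ⟨hc, hcy⟩, ?_⟩
      by_contra hne
      exact Set.disjoint_left.1 (hd hne) (hι c hc) hct
  rw [← hιinj.encard_image, himage, ← ENNReal.tsum_set_one, tsum_subtype {n | y ∈ F '' (S ∩ t n)}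
    (fun _ => (1 : ℝ≥0∞))]
  refine tsum_congr fun n => ?_
  by_cases h : y ∈ F '' (S ∩ t n)
  · rw [Set.indicator_of_mem h, Set.indicator_of_mem (show n ∈ {n | y ∈ F '' (S ∩ t n)} from h)]
  · rw [Set.indicator_of_notMem h,
      Set.indicator_of_notMem (show n ∉ {n | y ∈ F '' (S ∩ t n)} from h)]

/-- Area formula with multiplicities, nonsingular points. -/
theorem UFAV_area (μ : Measure E) [μ.IsAddHaarMeasure] (F : E → E) (F' : E → E →L[ℝ] E) (S : Set E)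
    (hS : MeasurableSet S) (hF : ∀ x ∈ S, HasFDerivWithinAt F (F' x) S x)
    (hdet : ∀ x ∈ S, (F' x).det ≠ 0) (g : E → ℝ≥0∞) (hg : Measurable g) :
    ∫⁻ c in S, ENNReal.ofReal |(F' c).det| * g (F c) ∂μ =
      ∫⁻ y, g y * (({c ∈ S | F c = y}.encard : ℕ∞) : ℝ≥0∞) ∂μ ∧
    Measurable (fun y => (({c ∈ S | F c = y}.encard : ℕ∞) : ℝ≥0∞)) := by
  rcases S.eq_empty_or_nonempty with hE | hne
  · subst hE
    simp
  choose r hr0 hr using (UFAV_rad : ∀ A : E →L[ℝ] E, _)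
  obtain ⟨t, A, hd, htm, hSt, hA, hAF⟩ :=
    exists_partition_approximatesLinearOn_of_hasFDerivWithinAt F S F' hF r hr0
  have hinj : ∀ n, Set.InjOn F (S ∩ t n) := by
    intro n
    obtain ⟨y, hy, hAy⟩ := hAF hne n
    have hB := ContinuousLinearMap.coe_toContinuousLinearEquivOfDetNeZero (F' y) (hdet y hy)
    have h1 := hr (A n) ((F' y).toContinuousLinearEquivOfDetNeZero (hdet y hy)) (hB.trans hAy.symm)
    have h2 := hA n
    rw [← hB.trans hAy.symm] at h2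
    refine h2.injOn ?_
    rw [hB.trans hAy.symm]
    exact h1
  have hm : ∀ n, MeasurableSet (S ∩ t n) := fun n => hS.inter (htm n)
  have hF' : ∀ n, ∀ x ∈ S ∩ t n, HasFDerivWithinAt F (F' x) (S ∩ t n) x := fun n x hx =>
    (hF x hx.1).mono Set.inter_subset_left
  have hmi : ∀ n, MeasurableSet (F '' (S ∩ t n)) := fun n =>
    measurable_image_of_fderivWithin (hm n) (hF' n) (hinj n)
  have hSu : S = ⋃ n, (S ∩ t n) := by
    rw [← Set.inter_iUnion, Set.inter_eq_left.2 hSt]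
  have hdis : Pairwise (Function.onFun Disjoint fun n => S ∩ t n) := fun i j hij =>
    (hd hij).mono Set.inter_subset_right Set.inter_subset_right
  refine ⟨?_, ?_⟩
  swap
  · have h1 : (fun y => (({c ∈ S | F c = y}.encard : ℕ∞) : ℝ≥0∞)) =
        fun y => ∑' n, (F '' (S ∩ t n)).indicator (fun _ => (1 : ℝ≥0∞)) y := by
      funext y
      exact (UFAV_card F S t hd hSt hinj y).symm
    rw [h1]
    exact Measurable.ennreal_tsum fun n => measurable_const.indicator (hmi n)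
  calc ∫⁻ c in S, ENNReal.ofReal |(F' c).det| * g (F c) ∂μ
      = ∫⁻ c in ⋃ n, (S ∩ t n), ENNReal.ofReal |(F' c).det| * g (F c) ∂μ := by rw [← hSu]
    _ = ∑' n, ∫⁻ c in S ∩ t n, ENNReal.ofReal |(F' c).det| * g (F c) ∂μ :=
        lintegral_iUnion hm hdis _
    _ = ∑' n, ∫⁻ y in F '' (S ∩ t n), g y ∂μ := by
        refine tsum_congr fun n => ?_
        rw [lintegral_image_eq_lintegral_abs_det_fderiv_mul μ (hm n) (hF' n) (hinj n)]
    _ = ∑' n, ∫⁻ y, g y * (F '' (S ∩ t n)).indicator (fun _ => (1 : ℝ≥0∞)) y ∂μ := by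
        refine tsum_congr fun n => ?_
        rw [← lintegral_indicator (hmi n)]
        refine lintegral_congr fun y => ?_
        by_cases h : y ∈ F '' (S ∩ t n)
        · rw [Set.indicator_of_mem h, Set.indicator_of_mem h, mul_one]
        · rw [Set.indicator_of_notMem h, Set.indicator_of_notMem h, mul_zero]
    _ = ∫⁻ y, ∑' n, g y * (F '' (S ∩ t n)).indicator (fun _ => (1 : ℝ≥0∞)) y ∂μ := by
        rw [lintegral_tsum]
        intro n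
        exact (hg.mul (measurable_const.indicator (hmi n))).aemeasurable
    _ = _ := by
        refine lintegral_congr fun y => ?_
        rw [ENNReal.tsum_mul_left, UFAV_card F S t hd hSt hinj y]


end areasec

open MeasureTheory Set Filter Topology Metric Complex
open scoped ENNReal ContDiff


theorem UFAV_isOpen (a r : ℝ) : IsOpen (TB a r) := by
  have h1 : IsOpen {p : ℂ × ℂ | ‖p.1‖ < a} := isOpen_lt (by fun_prop) continuous_const
  have h2 : IsOpen {p : ℂ × ℂ | ‖p.2‖ < r} := isOpen_lt (by fun_prop) continuous_const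
  exact h1.inter h2

theorem UFAV_dx {f : ℂ × ℂ → ℂ} {U : Set (ℂ × ℂ)} (hf : AnalyticOnNhd ℂ f U) : AnalyticOnNhd ℂ (dx f) U :=
  (ContinuousLinearMap.apply ℂ ℂ ((1, 0) : ℂ × ℂ)).comp_analyticOnNhd hf.fderiv

theorem UFAV_dv {f : ℂ × ℂ → ℂ} {U : Set (ℂ × ℂ)} (hf : AnalyticOnNhd ℂ f U) : AnalyticOnNhd ℂ (dv f) U :=
  (ContinuousLinearMap.apply ℂ ℂ ((0, 1) : ℂ × ℂ)).comp_analyticOnNhd hf.fderiv

theorem UFAV_cx {P Q : ℂ × ℂ → ℂ} {a r : ℝ} (h : Hol P Q a r) : AnalyticOnNhd ℂ (cx P Q) (TB a r) :=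
  (h.hQ.mul (UFAV_dx h.hP)).sub (h.hP.mul (UFAV_dx h.hQ))

theorem UFAV_cv {P Q : ℂ × ℂ → ℂ} {a r : ℝ} (h : Hol P Q a r) : AnalyticOnNhd ℂ (cv P Q) (TB a r) :=
  (h.hQ.mul (UFAV_dv h.hP)).sub (h.hP.mul (UFAV_dv h.hQ))

theorem UFAV_nn {P Q : ℂ × ℂ → ℂ} {a r : ℝ} (h : Hol P Q a r) : ContinuousOn (nn P Q) (TB a r) := by
  have h1 := (UFAV_cx h).continuousOn
  have h2 := (UFAV_cv h).continuousOn
  have h3 := (UFAV_cx h).fderiv.continuousOn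
  have h4 := (UFAV_cv h).fderiv.continuousOn
  have h5 : ContinuousOn (ef P Q) (TB a r) := h2.prodMk h1.neg
  exact (h1.mul (h4.clm_apply h5)).sub (h2.mul (h3.clm_apply h5))

/-- the fold set in a chart -/
theorem UFAV_set {P Q : ℂ × ℂ → ℂ} {τ r : ℝ} (h : Hol P Q 4 τ) (hr : r ≤ τ) (b ζ : ℂ) :
    {p | p ∈ {p : ℂ × ℂ | p ∈ TB 1 r ∧ Q p ≠ 0 ∧ cv P Q p ≠ 0 ∧ nn P Q p ≠ 0} ∧
      (fun q : ℂ × ℂ => (- cx P Q q / cv P Q q, P q / Q q)) p = (b, ζ)} =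
    {p : ℂ × ℂ | p ∈ TB 1 r ∧ P p = ζ * Q p ∧ cx P Q p + b * cv P Q p = 0 ∧ nn P Q p ≠ 0} := by
  ext p
  simp only [Set.mem_ofPred_eq, Prod.mk.injEq]
  constructor
  · rintro ⟨⟨h1, h2, h3, h4⟩, h5, h6⟩
    refine ⟨h1, ?_, ?_, h4⟩
    · rw [← h6]
      field_simp
    · rw [← h5]
      field_simp
      ring
  · rintro ⟨h1, h2, h3, h4⟩
    have hp : p ∈ TB 4 τ := ⟨by linarith [h1.1], by linarith [h1.2]⟩
    have hQ : Q p ≠ 0 := by
      intro h0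
      rcases h.ne p hp with h5 | h5
      · exact h5 (by rw [h2, h0, mul_zero])
      · exact h5 h0
    have hcv : cv P Q p ≠ 0 := by
      intro h0
      apply h4
      have h5 : cx P Q p = 0 := by
        rw [h0, mul_zero, add_zero] at h3
        exact h3
      unfold nn
      rw [h0, h5]
      ring
    refine ⟨⟨h1, hQ, hcv, h4⟩, ?_, ?_⟩
    · rw [div_eq_iff hcv]
      linear_combination -h3
    · rw [div_eq_iff hQ]
      exact h2

theorem UFAV_pt {P Q : ℂ × ℂ → ℂ} {σ : ℝ} (hσ : 0 < σ) (p : ℂ × ℂ) (hQ : Q p ≠ 0) (hcv : cv P Q p ≠ 0) :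
    ENNReal.ofReal (‖nn P Q p‖ ^ 2 / (‖cv P Q p‖ ^ 4 * ‖Q p‖ ^ 4)) *
      ((ball (0 : ℂ) σ).indicator (fun _ => (1 : ℝ≥0∞)) (- cx P Q p / cv P Q p) * gz (P p / Q p)) ≤
    ENNReal.ofReal (4 * σ ^ 2) * ENNReal.ofReal (Fd P Q σ p * om P Q p) := by
  by_cases hb : - cx P Q p / cv P Q p ∈ ball (0 : ℂ) σ
  · rw [Set.indicator_of_mem hb, one_mul]
    unfold gz
    rw [← ENNReal.ofReal_mul (by positivity), ← ENNReal.ofReal_mul (by positivity)]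
    refine ENNReal.ofReal_le_ofReal ?_
    have hq : 0 < ‖Q p‖ := norm_pos_iff.2 hQ
    have hc : 0 < ‖cv P Q p‖ := norm_pos_iff.2 hcv
    have h1 : ‖cx P Q p‖ < σ * ‖cv P Q p‖ := by
      rw [mem_ball_zero_iff, norm_div, norm_neg, div_lt_iff₀ hc] at hb
      exact hb
    have h2 : 0 ≤ ‖cx P Q p‖ := norm_nonneg _
    have e1 : ‖nn P Q p‖ ^ 2 / (‖cv P Q p‖ ^ 4 * ‖Q p‖ ^ 4) * ((1 + ‖P p / Q p‖ ^ 2) ^ 2)⁻¹ =
        ‖nn P Q p‖ ^ 2 / ‖cv P Q p‖ ^ 4 * om P Q p := by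
      unfold om
      rw [norm_div]
      have h3 : 0 < ‖P p‖ ^ 2 + ‖Q p‖ ^ 2 := by positivity
      field_simp
      ring
    rw [e1]
    have hom : 0 ≤ om P Q p := by
      unfold om
      positivity
    have h4 : ‖cx P Q p‖ ^ 2 + σ ^ 2 * ‖cv P Q p‖ ^ 2 ≤ 2 * (σ ^ 2 * ‖cv P Q p‖ ^ 2) := by
      have : ‖cx P Q p‖ ^ 2 ≤ (σ * ‖cv P Q p‖) ^ 2 := by
        exact pow_le_pow_left₀ h2 h1.le 2
      nlinarith
    have h5 : 0 < ‖cx P Q p‖ ^ 2 + σ ^ 2 * ‖cv P Q p‖ ^ 2 := by positivity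
    have h6 : (‖cx P Q p‖ ^ 2 + σ ^ 2 * ‖cv P Q p‖ ^ 2) ^ 2 ≤ 4 * σ ^ 4 * ‖cv P Q p‖ ^ 4 := by
      calc (‖cx P Q p‖ ^ 2 + σ ^ 2 * ‖cv P Q p‖ ^ 2) ^ 2 ≤ (2 * (σ ^ 2 * ‖cv P Q p‖ ^ 2)) ^ 2 :=
            pow_le_pow_left₀ h5.le h4 2
        _ = 4 * σ ^ 4 * ‖cv P Q p‖ ^ 4 := by ring
    have h7 : ‖nn P Q p‖ ^ 2 / ‖cv P Q p‖ ^ 4 ≤ 4 * σ ^ 2 * Fd P Q σ p := by
      unfold Fd
      rw [← mul_div_assoc, div_le_div_iff₀ (by positivity) (by positivity)]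
      have h8 : 0 ≤ ‖nn P Q p‖ ^ 2 := by positivity
      calc ‖nn P Q p‖ ^ 2 * (‖cx P Q p‖ ^ 2 + σ ^ 2 * ‖cv P Q p‖ ^ 2) ^ 2 ≤ ‖nn P Q p‖ ^ 2 * (4 * σ ^ 4 * ‖cv P Q p‖ ^ 4) :=
            mul_le_mul_of_nonneg_left h6 h8
        _ = 4 * σ ^ 2 * (σ ^ 2 * ‖nn P Q p‖ ^ 2) * ‖cv P Q p‖ ^ 4 := by ring
    calc ‖nn P Q p‖ ^ 2 / ‖cv P Q p‖ ^ 4 * om P Q p ≤ 4 * σ ^ 2 * Fd P Q σ p * om P Q p :=
          mul_le_mul_of_nonneg_right h7 hom
      _ = 4 * σ ^ 2 * (Fd P Q σ p * om P Q p) := by ring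
  · rw [Set.indicator_of_notMem hb, zero_mul, mul_zero]
    exact bot_le

/-- UFAV: the average of the number of folds -/
theorem UFAV (hJAC : UJAC_stmt) : UFAV_stmt := by
  intro P Q τ hH r σ hr hrτ hσ
  set S : Set (ℂ × ℂ) := {p : ℂ × ℂ | p ∈ TB 1 r ∧ Q p ≠ 0 ∧ cv P Q p ≠ 0 ∧ nn P Q p ≠ 0} with hS
  set F : ℂ × ℂ → ℂ × ℂ := fun q : ℂ × ℂ => (- cx P Q q / cv P Q q, P q / Q q) with hF
  have hsub : TB 1 r ⊆ TB 4 τ := fun p hp => ⟨by linarith [hp.1], by linarith [hp.2]⟩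
  have hSo : IsOpen S := by
    have hT := UFAV_isOpen 1 r
    have h1 : IsOpen (TB 1 r ∩ Q ⁻¹' {0}ᶜ) :=
      (hH.hQ.continuousOn.mono hsub).isOpen_inter_preimage hT isOpen_compl_singleton
    have h2 : IsOpen (TB 1 r ∩ (cv P Q) ⁻¹' {0}ᶜ) :=
      ((UFAV_cv hH).continuousOn.mono hsub).isOpen_inter_preimage hT isOpen_compl_singleton
    have h3 : IsOpen (TB 1 r ∩ (nn P Q) ⁻¹' {0}ᶜ) :=
      ((UFAV_nn hH).mono hsub).isOpen_inter_preimage hT isOpen_compl_singleton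
    have e : S = (TB 1 r ∩ Q ⁻¹' {0}ᶜ) ∩ (TB 1 r ∩ (cv P Q) ⁻¹' {0}ᶜ) ∩ (TB 1 r ∩ (nn P Q) ⁻¹' {0}ᶜ) := by
      ext p
      rw [hS]
      constructor
      · rintro ⟨a1, a2, a3, a4⟩
        exact ⟨⟨⟨a1, a2⟩, ⟨a1, a3⟩⟩, ⟨a1, a4⟩⟩
      · rintro ⟨⟨⟨a1, a2⟩, ⟨_, a3⟩⟩, ⟨_, a4⟩⟩
        exact ⟨a1, a2, a3, a4⟩
    rw [e]
    exact (h1.inter h2).inter h3
  have hSm : MeasurableSet S := hSo.measurableSet
  have hex : ∀ p : ℂ × ℂ, ∃ A : ℂ × ℂ →L[ℝ] ℂ × ℂ, p ∈ S → HasFDerivAt F A p ∧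
      |A.det| = ‖nn P Q p‖ ^ 2 / (‖cv P Q p‖ ^ 4 * ‖Q p‖ ^ 4) := by
    intro p
    by_cases hp : p ∈ S
    · obtain ⟨A, hA1, hA2⟩ := (hJAC P Q 4 τ hH p (hsub hp.1) hp.2.1).1 hp.2.2.1
      exact ⟨A, fun _ => ⟨hA1, hA2⟩⟩
    · exact ⟨0, fun h => absurd h hp⟩
  choose F' hF' using hex
  set g : ℂ × ℂ → ℝ≥0∞ := fun y => (ball (0 : ℂ) σ).indicator (fun _ => (1 : ℝ≥0∞)) y.1 * gz y.2 with hg
  have hgz : Measurable gz := by
    unfold gz
    fun_prop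
  have hgm : Measurable g := by
    have h1 : Measurable (fun y : ℂ × ℂ => (ball (0 : ℂ) σ).indicator (fun _ => (1 : ℝ≥0∞)) y.1) :=
      (measurable_const.indicator measurableSet_ball).comp measurable_fst
    exact h1.mul (hgz.comp measurable_snd)
  haveI hHaar : (volume : Measure (ℂ × ℂ)).IsAddHaarMeasure := by
    rw [Measure.volume_eq_prod]
    infer_instance
  obtain ⟨key, key2⟩ := UFAV_area (volume : Measure (ℂ × ℂ)) F F' S hSm
    (fun p hp => (hF' p hp).1.hasFDerivWithinAt)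
    (fun p hp => by
      have h1 := (hF' p hp).2
      have h2 : 0 < ‖nn P Q p‖ ^ 2 / (‖cv P Q p‖ ^ 4 * ‖Q p‖ ^ 4) := by
        have a1 : 0 < ‖Q p‖ := norm_pos_iff.2 hp.2.1
        have a2 : 0 < ‖cv P Q p‖ := norm_pos_iff.2 hp.2.2.1
        have a3 : 0 < ‖nn P Q p‖ := norm_pos_iff.2 hp.2.2.2
        positivity
      intro h0
      rw [h0, abs_zero] at h1
      linarith) g hgm
  set N : ℂ × ℂ → ℝ≥0∞ := fun y => cnt {p : ℂ × ℂ | p ∈ TB 1 r ∧ P p = y.2 * Q p ∧ cx P Q p + y.1 * cv P Q p = 0 ∧ nn P Q p ≠ 0} with hN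
  have hNe : (fun y : ℂ × ℂ => (({c ∈ S | F c = y}.encard : ℕ∞) : ℝ≥0∞)) = N := by
    funext y
    exact congrArg (fun A : Set (ℂ × ℂ) => ((A.encard : ℕ∞) : ℝ≥0∞)) (UFAV_set hH hrτ y.1 y.2)
  have hNm : Measurable N := by
    rw [← hNe]
    exact key2
  refine ⟨fun b => ?_, ?_, ?_⟩
  · exact hNm.comp (measurable_prodMk_left (x := b))
  · have h1 : Measurable (fun y : ℂ × ℂ => gz y.2 * N y) := (hgz.comp measurable_snd).mul hNm
    exact h1.lintegral_prod_right'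
  · have e1 : ∫⁻ b in ball (0 : ℂ) σ, ∫⁻ ζ, gz ζ * N (b, ζ) = ∫⁻ y : ℂ × ℂ, g y * N y := by
      have hm : AEMeasurable (fun y : ℂ × ℂ => g y * N y) ((volume : Measure ℂ).prod (volume : Measure ℂ)) :=
        (hgm.mul hNm).aemeasurable
      rw [Measure.volume_eq_prod, lintegral_prod (fun y : ℂ × ℂ => g y * N y) hm, ← lintegral_indicator measurableSet_ball]
      refine lintegral_congr fun b => ?_
      by_cases hb : b ∈ ball (0 : ℂ) σ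
      · rw [Set.indicator_of_mem hb]
        refine lintegral_congr fun ζ => ?_
        simp only [hg]
        rw [Set.indicator_of_mem hb, one_mul]
      · rw [Set.indicator_of_notMem hb]
        simp only [hg]
        rw [Set.indicator_of_notMem hb]
        simp
    have e2 : ∫⁻ y : ℂ × ℂ, g y * N y = ∫⁻ c in S, ENNReal.ofReal |(F' c).det| * g (F c) := by
      rw [key]
      refine lintegral_congr fun y => ?_
      rw [← congrFun hNe y]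
    show ∫⁻ b in ball (0 : ℂ) σ, ∫⁻ ζ, gz ζ * N (b, ζ) ≤ _
    rw [e1, e2]
    calc ∫⁻ c in S, ENNReal.ofReal |(F' c).det| * g (F c)
        ≤ ∫⁻ c in S, ENNReal.ofReal (4 * σ ^ 2) * ENNReal.ofReal (Fd P Q σ c * om P Q c) := by
          refine setLIntegral_mono' hSm fun c hc => ?_
          rw [(hF' c hc).2]
          exact UFAV_pt hσ c hc.2.1 hc.2.2.1
      _ = ENNReal.ofReal (4 * σ ^ 2) * ∫⁻ c in S, ENNReal.ofReal (Fd P Q σ c * om P Q c) :=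
          lintegral_const_mul' _ _ ENNReal.ofReal_ne_top
      _ ≤ ENNReal.ofReal (4 * σ ^ 2) * ∫⁻ p in TB 1 r, ENNReal.ofReal (Fd P Q σ p * om P Q p) := by
          refine mul_le_mul_right ?_ _
          exact lintegral_mono_set fun p hp => hp.1

end Pool.Agent.P2U
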