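import Pool.Agent.helper37.P2.SpecD

set_option autoImplicit false

/-!
# Project P2 (MP_063734_an): row PRS (case B, conclusion)
-/

open scoped ContDiff Topology
open MeasureTheory Filter Set Metric MvPolynomial Pool.Agent.helper37.QA

namespace Pool.Agent.P2

lemma PRS_cone {d : ℕ} {f : Endo 2 d} {V : Set (PP 2)} (hV : IsTrapping f V) {Z : ℂ → E3}
    (hZ : Dsc V Z) {z : ℂ} (hz : z ∈ ball (0 : ℂ) 1) (k : ℕ) : It f k (Z z) ∈ cone V := by
  obtain ⟨hne, hmem⟩ := hZ.2 z hz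
  have h1 := iterate_mem hV hmem k
  rw [map_iter f k hne] at h1
  exact ⟨_, h1⟩

lemma PRS_ne {d : ℕ} {f : Endo 2 d} {U V : Set (PP 2)} (hU : Good0 f U) (hVU : V ⊆ U) {Y : E3}
    (hY : Y ∈ cone V) : Y 0 ≠ 0 ∨ Y 1 ≠ 0 := by
  by_contra hc
  push Not at hc
  obtain ⟨hne, hmem⟩ := hY
  exact hU.2 Y hne hc.1 hc.2 (subset_closure (hVU hmem))

lemma PRS_Gk (hLAT : LAT_stmt) (hUNI : UNI_stmt) {d : ℕ} {f : Endo 2 d} {U V : Set (PP 2)}
    (hU : Good0 f U) (hV : IsTrapping f V) (hVU : V ⊆ U) {Z : ℂ → E3} (hZ : Dsc V Z) {z : ℂ}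
    (hz : z ∈ ball (0 : ℂ) 1) {κ δ : ℝ} (hκ : 0 < κ) (hκ1 : κ ≤ 1 / 10) {N k : ℕ}
    (hG : GoodPt f Z N k κ δ z) :
    Gk f Z κ z k ∧ rd κ (chx (It f k (Z z))) ∈ ctr κ := by
  obtain ⟨-, hL2, hL3, hL4, -⟩ := hLAT
  have hY := PRS_cone hV hZ hz k
  have hne := PRS_ne hU hVU hY
  obtain ⟨hx1, a, y, ha, hY2⟩ := hL4 _ hne
  have hctr := hL3 κ (chx (It f k (Z z))) hκ (by linarith) hx1
  have hc2 : ‖rd κ (chx (It f k (Z z)))‖ ≤ 2 := hctr.1
  obtain ⟨g, γ, hI, ⟨ξ, hξ, hgξ⟩, -⟩ := hG (chi (It f k (Z z))) (rd κ (chx (It f k (Z z)))) hc2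
    ⟨_, y, a, ha, hY2, (hL2 κ _ hκ).trans (by linarith)⟩
  obtain ⟨-, hU3⟩ := hUNI d f V Z k (chi (It f k (Z z))) (rd κ (chx (It f k (Z z)))) κ hV hZ hκ
  obtain ⟨-, -, g', γ', hN, hgg, -⟩ := hU3 g γ hI
  refine ⟨⟨g', γ', ξ, hN, hξ, ?_⟩, hctr⟩
  rw [← hgg (mem_ball_zero_iff.2 (by linarith)), hgξ]

lemma PRS_It_cont {d : ℕ} (f : Endo 2 d) (N : ℕ) (i : Fin 3) : Continuous fun Y : E3 => It f N Y i := by
  have h1 : Continuous (It f N) := pmap_cont _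
  exact (continuous_apply i).comp h1

lemma PRS_meas {d : ℕ} (f : Endo 2 d) (N : ℕ) {Z : ℂ → E3} (hZ : DifferentiableOn ℂ Z (ball 0 1))
    (hsub : {z : ℂ | eta z ≠ 0} ⊆ ball 0 1) (c : ℝ) :
    AEMeasurable (fun z => eta z ^ 2 * tau f N Z z / c) volume := by
  have h1 : (fun z => eta z ^ 2 * tau f N Z z / c) =
      (ball (0 : ℂ) 1).indicator (fun z => eta z ^ 2 * tau f N Z z / c) := by
    funext z
    by_cases hz : z ∈ ball (0 : ℂ) 1
    · rw [Set.indicator_of_mem hz]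
    · rw [Set.indicator_of_notMem hz]
      have h2 : eta z = 0 := by
        by_contra h3
        exact hz (hsub h3)
      rw [h2]
      simp
  rw [h1, aemeasurable_indicator_iff measurableSet_ball]
  have hP : ∀ i : Fin 3, AEMeasurable (fun z => It f N (Z z) i) (volume.restrict (ball (0 : ℂ) 1)) := by
    intro i
    have h3 : ContinuousOn (fun z => It f N (Z z) i) (ball 0 1) :=
      (PRS_It_cont f N i).comp_continuousOn hZ.continuousOn
    exact h3.aemeasurable measurableSet_ball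
  have heta : AEMeasurable eta (volume.restrict (ball (0 : ℂ) 1)) := by
    have h4 : Continuous eta := by
      unfold eta
      exact Real.smoothTransition.continuous.comp (continuous_const.sub (continuous_const.mul Complex.continuous_normSq))
    exact h4.aemeasurable
  have hn : ∀ {u : ℂ → ℂ}, AEMeasurable u (volume.restrict (ball (0 : ℂ) 1)) →
      AEMeasurable (fun z => Complex.normSq (u z)) (volume.restrict (ball (0 : ℂ) 1)) := by
    intro u hu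
    exact Complex.continuous_normSq.measurable.comp_aemeasurable hu
  have hd : ∀ i : Fin 3, AEMeasurable (deriv (fun z => It f N (Z z) i)) (volume.restrict (ball (0 : ℂ) 1)) :=
    fun i => (measurable_deriv _).aemeasurable
  have htau : AEMeasurable (fun z => tau f N Z z) (volume.restrict (ball (0 : ℂ) 1)) := by
    unfold tau pq
    exact ((((hn (((hP 1).mul (hd 0)).sub ((hP 0).mul (hd 1)))).const_mul _).div
      (((hn (hP 0)).add (hn (hP 1))).pow_const 2)).div_const _)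
  exact ((heta.pow_const 2).mul htau).div_const c

lemma PRS_tau_nonneg {d : ℕ} (f : Endo 2 d) (N : ℕ) (Z : ℂ → E3) (z : ℂ) : 0 ≤ tau f N Z z := by
  unfold tau
  have h1 := Complex.normSq_nonneg (It f N (Z z) 1 * deriv (fun z => It f N (Z z) 0) z -
    It f N (Z z) 0 * deriv (fun z => It f N (Z z) 1) z)
  positivity

lemma PRS_mz {d : ℕ} (f : Endo 2 d) (N : ℕ) {Z : ℂ → E3} (hZ : DifferentiableOn ℂ Z (ball 0 1))
    (hsub : {z : ℂ | eta z ≠ 0} ⊆ ball 0 1) (hm : 0 < mass f N Z)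
    (hp : IsProbabilityMeasure (mz f N Z)) {Bd : Set ℂ} (hBd : MeasurableSet Bd) {ε : ℝ}
    (h : ∫ z in Bd, eta z ^ 2 * tau f N Z z ≤ ε * mass f N Z) :
    mz f N Z Bd ≤ ENNReal.ofReal ε := by
  have hnn : ∀ z, 0 ≤ eta z ^ 2 * tau f N Z z / mass f N Z := fun z =>
    div_nonneg (mul_nonneg (sq_nonneg _) (PRS_tau_nonneg f N Z z)) hm.le
  have hmeas := PRS_meas f N hZ hsub (mass f N Z)
  have hint : Integrable (fun z => eta z ^ 2 * tau f N Z z / mass f N Z) volume := by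
    refine ⟨hmeas.aestronglyMeasurable, ?_⟩
    rw [hasFiniteIntegral_iff_ofReal (Filter.Eventually.of_forall hnn)]
    have h1 := hp.measure_univ
    unfold mz at h1
    rw [withDensity_apply _ MeasurableSet.univ, setLIntegral_univ] at h1
    rw [h1]
    exact ENNReal.one_lt_top
  unfold mz
  rw [withDensity_apply _ hBd, ← ofReal_integral_eq_lintegral_ofReal hint.integrableOn
    (Filter.Eventually.of_forall hnn)]
  refine ENNReal.ofReal_le_ofReal ?_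
  rw [integral_div, div_le_iff₀ hm]
  exact h

lemma PRS_Us {d : ℕ} {f : Endo 2 d} {Us : ℕ → Set (PP 2)} {K : Set (PP 2)} (hC : Core f Us K) (J : ℕ) :
    Us J ⊆ Us 0 := by
  induction J with
  | zero => exact Subset.rfl
  | succ J ih => exact (subset_closure.trans (hC.anti J)).trans ih

open Classical in
lemma PRS_bad {ι : Type} (E : ι → ι → Prop) (ν : ℕ → Option ι) (m i : ℕ) (Q : ℕ × ℕ → Prop) [DecidablePred Q]
    (h : ∀ p ∈ Finset.Ico (2 * i * 2 ^ m) ((2 * i + 1) * 2 ^ m) ×ˢ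
      Finset.Ico ((2 * i + 1) * 2 ^ m) ((2 * i + 2) * 2 ^ m), ¬ Q p →
        ∃ b b', ν p.1 = some b ∧ ν p.2 = some b' ∧ E b b') :
    bad E ν m i ≤ ((Finset.Ico (2 * i * 2 ^ m) ((2 * i + 1) * 2 ^ m) ×ˢ
      Finset.Ico ((2 * i + 1) * 2 ^ m) ((2 * i + 2) * 2 ^ m)).filter Q).card := by
  unfold bad
  refine Finset.card_le_card fun p hp => ?_
  obtain ⟨hp1, hp2⟩ := Finset.mem_filter.1 hp
  refine Finset.mem_filter.2 ⟨hp1, ?_⟩
  by_contra hc
  exact hp2 (h p hp1 hc)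

open Classical in
theorem PRS (hLAT : LAT_stmt) (hUNI : UNI_stmt) (hMZP : MZP_stmt) (hNDE : NDE_stmt)
    (hWRD : WRD_stmt) (hXCL : XCL_stmt) : PRS_stmt := by
  intro d f Us K hd hC Λ1 Kb κ L N Z hΛ hKb hκ hκ1 hNod hNMD hPair
  obtain ⟨δ, C1, hδ, hNod⟩ := hNod
  obtain ⟨s, κ', C, hs, hκ', hκκ, hPair⟩ := hPair
  obtain ⟨I, hI, P, hPc, hP⟩ := hNDE d f (Us 0) hC.good κ κ' s hκ hκ1 hκ' hκκ hs
  obtain ⟨m0, hm0⟩ := hWRD (max C 0) (le_max_right _ _)
  obtain ⟨L0, hL0⟩ := hm0 (m0 + 64 * Fintype.card I + 1) (by omega) (max C1 1)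
  obtain ⟨J2, hJ2⟩ := hPair (2 ^ (m0 + 64 * Fintype.card I + 1))
  refine ⟨2 * 2 ^ (m0 + 64 * Fintype.card I + 1), max (max L0 C1) (max 1 J2), fun J hJ => ?_⟩
  have hJL0 : L0 ≤ J := le_trans (le_trans (le_max_left _ _) (le_max_left _ _)) hJ
  have hJC1 : C1 ≤ J := le_trans (le_trans (le_max_right _ _) (le_max_left _ _)) hJ
  have hJ1 : 1 ≤ J := le_trans (le_trans (le_max_left _ _) (le_max_right _ _)) hJ
  have hJJ2 : J2 ≤ J := le_trans (le_trans (le_max_right _ _) (le_max_right _ _)) hJ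
  obtain ⟨hLJ, hNJ, hDJ, hmJ, hub⟩ := hNMD.size J
  have hUs := PRS_Us hC J
  have hD0 : Dsc (Us 0) (Z J) := ⟨hDJ.1, fun z hz => by
    obtain ⟨h, h'⟩ := hDJ.2 z hz
    exact ⟨h, hUs h'⟩⟩
  have hJ1' : (1 : ℝ) ≤ J := by exact_mod_cast hJ1
  have hmpos : 0 < mass f (N J) (Z J) := by linarith
  obtain ⟨hprob, hEc, hEb, hEm⟩ := hMZP d f (Us 0) (N J) (Z J) hd hC.good hD0 hmpos
  set M : ℕ := m0 + 64 * Fintype.card I + 1 with hM
  have hB : ∀ k, ∃ Bd : Set ℂ, max C1 1 ≤ k → k < L J → MeasurableSet Bd ∧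
      (∀ z ∈ ball (0 : ℂ) 1, eta z ≠ 0 → z ∉ Bd → GoodPt f (Z J) (N J) k κ δ z) ∧
      ∫ z in Bd, eta z ^ 2 * tau f (N J) (Z J) z ≤ 1 / 100 * mass f (N J) (Z J) := by
    intro k
    by_cases hk : max C1 1 ≤ k ∧ k < L J
    · have hk1 : C1 ≤ k := le_trans (le_max_left _ _) hk.1
      have hC1m : (C1 : ℝ) ≤ mass f (N J) (Z J) := by
        have : (C1 : ℝ) ≤ J := by exact_mod_cast hJC1
        linarith
      obtain ⟨Bd, h1, h2, h3⟩ := hNod k (N J) (Z J) hk1 (by omega) hD0 hC1m hub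
      exact ⟨Bd, fun _ _ => ⟨h1, h2, h3⟩⟩
    · exact ⟨∅, fun h1 h2 => absurd ⟨h1, h2⟩ hk⟩
  choose B1 hB1 using hB
  have key := hL0 (L J) (hJL0.trans hLJ) (mz f (N J) (Z J)) {z : ℂ | eta z ≠ 0} B1
    (fun n k => BPr f (Z J) n k κ s κ') hEm hEc ?_ ?_
  swap
  · intro k hk1 hk2
    obtain ⟨h1, -, h3⟩ := hB1 k hk1 hk2
    exact PRS_mz f (N J) hD0.1 hEb hmpos hprob h1 h3
  swap
  · intro m hm
    have h1 := hJ2 J hJJ2 m hm
    have h2 : C ≤ max C 0 := le_max_left _ _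
    linarith
  obtain ⟨z, hzE, t0, ht0, ht0L, hsum⟩ := key
  have hzb : z ∈ ball (0 : ℂ) 1 := hEb hzE
  obtain ⟨ν₀, hν₀⟩ := hP (Us J) (Z J) z (hC.trap J) hUs hDJ hzb
  have hGood : ∀ p, p < 2 ^ M → z ∉ B1 (t0 + p) → Gk f (Z J) κ z (t0 + p) ∧
      rd κ (chx (It f (t0 + p) (Z J z))) ∈ ctr κ := by
    intro p hp hzB
    obtain ⟨-, h2, -⟩ := hB1 (t0 + p) (by omega) (by omega)
    exact PRS_Gk hLAT hUNI hC.good (hC.trap J) hUs hDJ hzb hκ hκ1 (h2 z hzb hzE hzB)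
  refine hXCL (PP 2) f.map (Us J) I P
    (fun p => if Gk f (Z J) κ z (t0 + p) then some (ν₀ (t0 + p)) else none) m0 M (2 ^ M)
    (map_cont f) (hC.trap J).2.2 (fun b => (hPc b).continuousOn) ?_ (by omega) ?_
  · intro k _ b hb
    by_cases hG : Gk f (Z J) κ z (t0 + k)
    · rw [if_pos hG] at hb
      obtain rfl := Option.some.inj hb
      exact (hν₀ (t0 + k) hG).1
    · rw [if_neg hG] at hb
      exact absurd hb (by simp)
  · refine lt_of_le_of_lt ?_ hsum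
    refine Finset.sum_le_sum fun m hm => ?_
    have hmM := Finset.mem_Ico.1 hm
    refine div_le_div_of_nonneg_right (Finset.sum_le_sum fun i hi => ?_) (by positivity)
    refine div_le_div_of_nonneg_right ?_ (by positivity)
    have hi' := Finset.mem_range.1 hi
    have hblock : (2 * i + 2) * 2 ^ m ≤ 2 ^ M := by
      have h1 : 2 * i + 2 ≤ 2 * 2 ^ (M - m - 1) := by omega
      calc (2 * i + 2) * 2 ^ m ≤ 2 * 2 ^ (M - m - 1) * 2 ^ m := Nat.mul_le_mul_right _ h1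
        _ = 2 ^ M := by
            rw [← pow_succ', ← pow_add]
            congr 1
            omega
    refine Nat.cast_le.2 (PRS_bad _ _ m i _ fun p hp1 hc => ?_)
    push Not at hc
    obtain ⟨hz1, hz2, hz3⟩ := hc
    obtain ⟨ha, hb⟩ := Finset.mem_product.1 hp1
    obtain ⟨ha1, ha2⟩ := Finset.mem_Ico.1 ha
    obtain ⟨hb1, hb2⟩ := Finset.mem_Ico.1 hb
    have hlt : p.1 < p.2 := lt_of_lt_of_le ha2 hb1
    have hp2M : p.2 < 2 ^ M := lt_of_lt_of_le hb2 hblock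
    obtain ⟨g1, c1⟩ := hGood p.1 (lt_trans hlt hp2M) hz1
    obtain ⟨g2, -⟩ := hGood p.2 hp2M hz2
    have hadd : t0 + p.1 + (p.2 - p.1) = t0 + p.2 := by omega
    refine ⟨ν₀ (t0 + p.1), ν₀ (t0 + p.2), if_pos g1, if_pos g2, p.2 - p.1, by omega, by omega, ?_⟩
    have hE := (hν₀ (t0 + p.1) g1).2 (p.2 - p.1) (by omega) (by rw [hadd]; exact g2) ?_
    · rw [hadd] at hE
      exact hE
    · intro g γ ξ hNI hξ hgξ
      by_contra hBP
      apply hz3
      unfold BPr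
      refine Set.mem_iUnion.2 ⟨chi (It f (t0 + p.1) (Z J z)), Set.mem_iUnion₂.2 ⟨_, c1, ?_⟩⟩
      exact ⟨g, γ, ξ, hNI, hξ, hgξ, hBP⟩

end Pool.Agent.P2
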