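import Pool.Agent.helper83.P2.SpecV
import Pool.Agent.helper80.P2.PSC

/-!
# Row p2:VAD
-/

set_option autoImplicit false

open scoped ContDiff Topology
open MeasureTheory Filter Set Metric MvPolynomial Pool.Agent.helper37.QA Pool.Agent.P2

namespace Pool.Agent.P2V

theorem VAD_Its {d : ℕ} (f : Endo 2 d) (m : ℕ) : ContDiff ℂ ∞ (It f m) :=
  contDiff_pi.2 fun i => PSC_Itc f m i

theorem VAD_fd {d : ℕ} (f : Endo 2 d) (m : ℕ) (Z X : E3) :
    fderiv ℂ (It f m) Z X = fun j => fderiv ℂ (fun W : E3 => It f m W j) Z X := by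
  have hF : HasFDerivAt (It f m)
      (ContinuousLinearMap.pi fun j : Fin 3 => fderiv ℂ (fun W : E3 => It f m W j) Z) Z :=
    hasFDerivAt_pi.2 fun j => (ENC_Itd f m j Z).hasFDerivAt
  rw [hF.fderiv]
  rfl

theorem VAD_Ds {d : ℕ} (f : Endo 2 d) (m : ℕ) (X : E3) :
    ContDiff ℂ ∞ fun Z => fderiv ℂ (It f m) Z X :=
  ((VAD_Its f m).fderiv_right (by simp)).clm_apply contDiff_const

theorem VAD_crss {E : Type} [NormedAddCommGroup E] [NormedSpace ℂ E] {v w : E → E3}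
    (hv : ContDiff ℂ ∞ v) (hw : ContDiff ℂ ∞ w) (k : Fin 3) :
    ContDiff ℂ ∞ fun Z => crs (v Z) (w Z) k := by
  have hv' : ∀ i, ContDiff ℂ ∞ fun Z => v Z i := fun i => contDiff_pi.1 hv i
  have hw' : ∀ i, ContDiff ℂ ∞ fun Z => w Z i := fun i => contDiff_pi.1 hw i
  fin_cases k
  · exact ((hv' 1).mul (hw' 2)).sub ((hv' 2).mul (hw' 1))
  · exact ((hv' 2).mul (hw' 0)).sub ((hv' 0).mul (hw' 2))
  · exact ((hv' 0).mul (hw' 1)).sub ((hv' 1).mul (hw' 0))

/-- the vectors under the sum in `hop` -/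
noncomputable def VAD_K {d : ℕ} (f : Endo 2 d) (m : ℕ) (Z : E3) (i : Fin 3) : E3 :=
  crs (It f m Z) (fderiv ℂ (It f m) Z (Pi.single i 1))

theorem VAD_Ks {d : ℕ} (f : Endo 2 d) (m : ℕ) (i k : Fin 3) :
    ContDiff ℂ ∞ fun Z => VAD_K f m Z i k :=
  VAD_crss (VAD_Its f m) (VAD_Ds f m (Pi.single i 1)) k

theorem VAD_Knn {d : ℕ} (f : Endo 2 d) (m : ℕ) (Z : E3) : 0 ≤ ∑ i : Fin 3, nq (VAD_K f m Z i) :=
  Finset.sum_nonneg fun _ _ => ENT_nqnn _

theorem VAD_sums {d : ℕ} (f : Endo 2 d) (m : ℕ) :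
    ContDiff ℝ ∞ fun Z : E3 => ∑ i : Fin 3, nq (VAD_K f m Z i) := by
  have h : ∀ i : Fin 3, ContDiff ℝ ∞ fun Z : E3 => nq (VAD_K f m Z i) := fun i =>
    PSC_nqs (G := fun Z => VAD_K f m Z i) fun k => VAD_Ks f m i k
  simp only [Fin.sum_univ_three]
  exact ((h 0).add (h 1)).add (h 2)

theorem VAD_uns {d : ℕ} (f : Endo 2 d) (U : Set (PP 2)) (N : ℕ)
    (hpq : ∀ Z ∈ cone U, 0 < pq (It f N Z)) : ContDiffOn ℝ ∞ (un f N) (cone U) := by
  have h3 : ContDiff ℝ ∞ fun Z : E3 => pq (It f N Z) := PSC_pqs (PSC_Itc f N)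
  have h : ContDiffOn ℝ ∞ (fun Z => (1 / 2) * Real.log (pq (It f N Z)) / (d : ℝ) ^ N) (cone U) :=
    (contDiffOn_const.mul (h3.contDiffOn.log fun Z hZ => (hpq Z hZ).ne')).div_const _
  exact h

theorem VAD_crssmul (a b : ℂ) (v w : E3) : crs (a • v) (b • w) = (a * b) • crs v w := by
  funext k
  fin_cases k <;> simp [crs] <;> ring

theorem VAD_Khom {d : ℕ} (f : Endo 2 d) (m : ℕ) (c : ℂ) (Z : E3) (i : Fin 3) :
    Complex.normSq c * nq (VAD_K f m (c • Z) i) =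
      (Complex.normSq c ^ d ^ m) ^ 2 * nq (VAD_K f m Z i) := by
  have h1 : c • fderiv ℂ (It f m) (c • Z) (Pi.single i 1) =
      c ^ d ^ m • fderiv ℂ (It f m) Z (Pi.single i 1) := by
    rw [VAD_fd, VAD_fd]
    funext j
    exact PSC_dhom f m j c Z (Pi.single i 1)
  have h2 : c • VAD_K f m (c • Z) i = (c ^ d ^ m * c ^ d ^ m) • VAD_K f m Z i := by
    have e1 : c • VAD_K f m (c • Z) i =
        crs ((1 : ℂ) • It f m (c • Z)) (c • fderiv ℂ (It f m) (c • Z) (Pi.single i 1)) := by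
      rw [VAD_crssmul, one_mul]
      rfl
    rw [e1, h1, one_smul, ENC_Ithom, VAD_crssmul]
    rfl
  have h3 := congrArg (fun v : E3 => nq v) h2
  simp only [PSC_nqsmul, map_mul, map_pow] at h3
  rw [h3]
  ring

theorem VAD_unhom {d : ℕ} (f : Endo 2 d) (hd : 2 ≤ d) (N : ℕ) (c : ℂ) (hc : c ≠ 0) (Z : E3)
    (hZ : 0 < pq (It f N Z)) :
    un f N (c • Z) = un f N Z + (1 / 2) * Real.log (Complex.normSq c) := by
  have hc' : 0 < Complex.normSq c := Complex.normSq_pos.2 hc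
  have hd0 : (d : ℝ) ^ N ≠ 0 := pow_ne_zero _ (by
    have : (0 : ℝ) < d := by exact_mod_cast (by omega : 0 < d)
    exact this.ne')
  unfold un
  rw [ENC_Ithom, PSC_pqsmul, map_pow, Real.log_mul (pow_ne_zero _ hc'.ne') hZ.ne', Real.log_pow]
  push_cast
  field_simp
  ring

theorem VAD_hophom {d : ℕ} (f : Endo 2 d) (hd : 2 ≤ d) (m N : ℕ) (c : ℂ) (hc : c ≠ 0) (Z : E3)
    (hZ : 0 < pq (It f N Z)) : hop f m N (c • Z) = hop f m N Z := by
  have hc' : 0 < Complex.normSq c := Complex.normSq_pos.2 hc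
  have h1 : Complex.normSq c * (∑ i : Fin 3, nq (VAD_K f m (c • Z) i)) =
      (Complex.normSq c ^ d ^ m) ^ 2 * ∑ i : Fin 3, nq (VAD_K f m Z i) := by
    rw [Finset.mul_sum, Finset.mul_sum]
    exact Finset.sum_congr rfl fun i _ => VAD_Khom f m c Z i
  have h2 : (Complex.normSq c ^ d ^ m) ^ 2 * Real.exp (-(4 * (d : ℝ) ^ m * un f N (c • Z))) =
      Real.exp (-(4 * (d : ℝ) ^ m * un f N Z)) := by
    rw [VAD_unhom f hd N c hc Z hZ]
    have e1 : (Complex.normSq c ^ d ^ m) ^ 2 =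
        Real.exp (2 * (d : ℝ) ^ m * Real.log (Complex.normSq c)) := by
      have e2 : 2 * (d : ℝ) ^ m * Real.log (Complex.normSq c) =
          ((d ^ m * 2 : ℕ) : ℝ) * Real.log (Complex.normSq c) := by
        push_cast
        ring
      rw [e2, Real.exp_nat_mul, Real.exp_log hc', ← pow_mul]
    rw [e1, ← Real.exp_add]
    congr 1
    ring
  show nq (c • Z) * (∑ i : Fin 3, nq (VAD_K f m (c • Z) i)) *
    Real.exp (-(4 * (d : ℝ) ^ m * un f N (c • Z))) =
    nq Z * (∑ i : Fin 3, nq (VAD_K f m Z i)) * Real.exp (-(4 * (d : ℝ) ^ m * un f N Z))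
  rw [PSC_nqsmul, ← h2]
  linear_combination nq Z * Real.exp (-(4 * (d : ℝ) ^ m * un f N (c • Z))) * h1

theorem VAD_hopnn {d : ℕ} (f : Endo 2 d) (m N : ℕ) (Z : E3) : 0 ≤ hop f m N Z :=
  mul_nonneg (mul_nonneg (ENT_nqnn _) (VAD_Knn f m Z)) (Real.exp_pos _).le

theorem VAD_lapsmul (g : ℂ → ℝ) (c : ℝ) (z : ℂ) (hg : ContDiffAt ℝ 2 g z) :
    lap (fun t => c * g t) z = c * lap g z := by
  unfold lap
  have hg' : ContDiffAt ℝ ((2 : ℕ) : WithTop ℕ∞) g z := by exact_mod_cast hg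
  have h1 : iteratedFDeriv ℝ 2 (fun t => c • g t) z = c • iteratedFDeriv ℝ 2 g z :=
    iteratedFDeriv_const_smul_apply' hg'
  simp only [smul_eq_mul] at h1
  rw [h1]
  simp only [ContinuousMultilinearMap.smul_apply, smul_eq_mul]
  ring

theorem VAD_levi (hLSE : LSE_stmt) {d : ℕ} (f : Endo 2 d) (U : Set (PP 2)) (hUo : IsOpen U)
    (m N : ℕ) (Λ : ℝ) (hpq : ∀ Z ∈ cone U, 0 < pq (It f N Z)) (Z : E3) (hZ : Z ∈ cone U) (E : E3)
    (hE : cc f N Z E = 0) : 0 ≤ lev (Psf f Λ m N) Z E := by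
  let γ : ℂ → E3 := fun t => Z + t • E
  have hγ : ContDiff ℂ ∞ γ := contDiff_const.add (contDiff_id.smul contDiff_const)
  have hγ' : ∀ t, HasDerivAt γ E t := by
    intro t
    have h := ((hasDerivAt_id t).smul_const E).const_add Z
    rwa [one_smul] at h
  let Ω : Set ℂ := γ ⁻¹' cone U
  have hΩ : IsOpen Ω := (cone_open hUo).preimage hγ.continuous
  have hγ0 : γ 0 = Z := by simp [γ]
  have h0Ω : (0 : ℂ) ∈ Ω := by
    show γ 0 ∈ cone U
    rw [hγ0]
    exact hZ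
  have hIt : ∀ i : Fin 3, ContDiff ℂ ∞ fun t => It f N (γ t) i := fun i =>
    (PSC_Itc f N i).comp hγ
  have hKs : ∀ i k : Fin 3, ContDiff ℂ ∞ fun t => VAD_K f m (γ t) i k := fun i k =>
    (VAD_Ks f m i k).comp hγ
  have hγR : ContDiff ℝ ∞ γ := hγ.restrict_scalars ℝ
  have huR : ContDiffOn ℝ ∞ (fun t => un f N (γ t)) Ω :=
    (VAD_uns f U N hpq).comp hγR.contDiffOn fun t ht => ht
  have hu2 : ContDiffOn ℝ 2 (fun t => un f N (γ t)) Ω := huR.of_le ENat.LEInfty.out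
  have huA : ContDiffAt ℝ 2 (fun t => un f N (γ t)) 0 := hu2.contDiffAt (hΩ.mem_nhds h0Ω)
  -- the potential is harmonic along the line
  have hu0 : lap (fun t => un f N (γ t)) 0 = 0 := by
    have hne : It f N (γ 0) 0 ≠ 0 ∨ It f N (γ 0) 1 ≠ 0 := by
      by_contra hcon
      push Not at hcon
      have h1 := hpq (γ 0) h0Ω
      unfold pq at h1
      rw [hcon.1, hcon.2] at h1
      simp at h1
    have h1 := MAU_core (fun t => It f N (γ t) 0) (fun t => It f N (γ t) 1) 0 ((d : ℝ) ^ N) Ω hΩ h0Ω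
      ((hIt 0).differentiable (by simp)).differentiableOn
      ((hIt 1).differentiable (by simp)).differentiableOn hne
    have hder : ∀ i : Fin 3, deriv (fun t => It f N (γ t) i) 0 =
        fderiv ℂ (fun W : E3 => It f N W i) (γ 0) E := by
      intro i
      have h3 := ENT_deriv f N i (hγ' 0).differentiableAt
      rw [(hγ' 0).deriv] at h3
      exact h3
    have h4 : It f N (γ 0) 0 * deriv (fun t => It f N (γ t) 1) 0 -
        It f N (γ 0) 1 * deriv (fun t => It f N (γ t) 0) 0 = 0 := by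
      rw [hder, hder, hγ0]
      have h5 : cc f N Z E = It f N Z 1 * fderiv ℂ (fun W => It f N W 0) Z E -
        It f N Z 0 * fderiv ℂ (fun W => It f N W 1) Z E := rfl
      rw [hE] at h5
      linear_combination h5
    have h2 : lap (fun t => un f N (γ t)) 0 =
      lap (fun t => (1 / 2) * Real.log (Complex.normSq (It f N (γ t) 0) +
        Complex.normSq (It f N (γ t) 1)) / (d : ℝ) ^ N) 0 := rfl
    rw [h2, h1, h4]
    simp
  -- the functions of `LSE`
  let B : ℂ → ℝ := fun t => 2 * (d : ℝ) ^ m * un f N (γ t) - Λ * m / 2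
  have hBs : ContDiffOn ℝ 2 B Ω := (contDiffOn_const.mul hu2).sub contDiffOn_const
  have hcc : ∀ (a : ℝ), lap (fun _ : ℂ => a) 0 = 0 := by
    intro a
    unfold lap
    rw [iteratedFDeriv_two_apply, iteratedFDeriv_two_apply]
    simp
  have hBlap : lap B 0 = 0 := by
    have h2 := PSC_lapsub (fun t => 2 * (d : ℝ) ^ m * un f N (γ t)) (fun _ => Λ * m / 2) 0
      (contDiffAt_const.mul huA) contDiffAt_const
    have h3 := VAD_lapsmul (fun t => un f N (γ t)) (2 * (d : ℝ) ^ m) 0 huA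
    rw [h3, hu0, hcc, mul_zero, sub_zero] at h2
    exact h2
  let e1 : Fin 3 × Fin 3 ≃ Fin (3 * 3) := finProdFinEquiv
  let e2 : Fin 3 × Fin (3 * 3) ≃ Fin (3 * (3 * 3)) := finProdFinEquiv
  let G : ℂ → Fin (3 * (3 * 3)) → ℂ := fun t k => γ t (e2.symm k).1 *
    VAD_K f m (γ t) (e1.symm (e2.symm k).2).1 (e1.symm (e2.symm k).2).2
  have hG : DifferentiableOn ℂ G Ω := by
    rw [differentiableOn_pi]
    intro k
    refine DifferentiableOn.mul ?_ ((hKs _ _).differentiable (by simp)).differentiableOn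
    exact (((contDiff_apply ℂ ℂ (e2.symm k).1).comp hγ).differentiable (by simp)).differentiableOn
  have hGn : ∀ t, nq (G t) = nq (γ t) * ∑ i : Fin 3, nq (VAD_K f m (γ t) i) := by
    intro t
    have h1 : nq (G t) = ∑ p : Fin 3 × Fin (3 * 3), Complex.normSq (γ t p.1 *
        VAD_K f m (γ t) (e1.symm p.2).1 (e1.symm p.2).2) := by
      unfold nq
      rw [← e2.sum_comp]
      refine Finset.sum_congr rfl fun p _ => ?_
      show Complex.normSq (γ t (e2.symm (e2 p)).1 * VAD_K f m (γ t) (e1.symm (e2.symm (e2 p)).2).1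
        (e1.symm (e2.symm (e2 p)).2).2) = _
      rw [e2.symm_apply_apply]
    have h2 : ∑ i : Fin 3, nq (VAD_K f m (γ t) i) = ∑ q : Fin (3 * 3), Complex.normSq
        (VAD_K f m (γ t) (e1.symm q).1 (e1.symm q).2) := by
      rw [← e1.sum_comp, Fintype.sum_prod_type]
      unfold nq
      refine Finset.sum_congr rfl fun i _ => Finset.sum_congr rfl fun k _ => ?_
      rw [e1.symm_apply_apply]
    rw [h1, h2, Fintype.sum_prod_type]
    unfold nq
    rw [Finset.sum_mul_sum]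
    refine Finset.sum_congr rfl fun i _ => Finset.sum_congr rfl fun j _ => ?_
    rw [Complex.normSq_mul]
  have hL := hLSE (3 * (3 * 3)) G B Ω hΩ h0Ω hG hBs hBlap.ge
  have hGnn : ∀ t, 0 ≤ nq (G t) := by
    intro t
    rw [hGn]
    exact mul_nonneg (ENT_nqnn _) (VAD_Knn f m _)
  -- the identity
  have hid : (fun t => Psf f Λ m N (γ t)) = fun t =>
      2 * ((1 / 2) * Real.log (nq (G t) + Real.exp (2 * B t))) - 4 * (d : ℝ) ^ m * un f N (γ t) := by
    funext t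
    have h3 : 0 < nq (G t) + Real.exp (2 * B t) := add_pos_of_nonneg_of_pos (hGnn t) (Real.exp_pos _)
    have h1 : hop f m N (γ t) + Real.exp (-(Λ * m)) =
        Real.exp (-(4 * (d : ℝ) ^ m * un f N (γ t))) * (nq (G t) + Real.exp (2 * B t)) := by
      rw [mul_add, ← Real.exp_add, hGn]
      have e3 : -(4 * (d : ℝ) ^ m * un f N (γ t)) + 2 * B t = -(Λ * m) := by
        show -(4 * (d : ℝ) ^ m * un f N (γ t)) + 2 * (2 * (d : ℝ) ^ m * un f N (γ t) - Λ * m / 2) = _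
        ring
      rw [e3]
      have e4 : hop f m N (γ t) = nq (γ t) * (∑ i : Fin 3, nq (VAD_K f m (γ t) i)) *
        Real.exp (-(4 * (d : ℝ) ^ m * un f N (γ t))) := rfl
      rw [e4]
      ring
    show Real.log (hop f m N (γ t) + Real.exp (-(Λ * m))) = _
    rw [h1, Real.log_mul (Real.exp_pos _).ne' h3.ne', Real.log_exp]
    ring
  have hnqG : ContDiff ℝ 2 fun t => nq (G t) := by
    have h1 : (fun t => nq (G t)) = fun t => nq (γ t) * ∑ i : Fin 3, nq (VAD_K f m (γ t) i) :=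
      funext hGn
    rw [h1]
    have h2 : ContDiff ℝ ∞ fun t => nq (γ t) :=
      (PSC_nqs (G := fun Z => Z) fun i => contDiff_apply ℂ ℂ i).comp hγR
    have h3 : ContDiff ℝ ∞ fun t => ∑ i : Fin 3, nq (VAD_K f m (γ t) i) := (VAD_sums f m).comp hγR
    exact (h2.mul h3).of_le ENat.LEInfty.out
  have hA : ContDiffAt ℝ 2 (fun t => (1 / 2) * Real.log (nq (G t) + Real.exp (2 * B t))) 0 := by
    have h1 : ContDiffAt ℝ 2 B 0 := hBs.contDiffAt (hΩ.mem_nhds h0Ω)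
    have h2 : ContDiffAt ℝ 2 (fun t => nq (G t) + Real.exp (2 * B t)) 0 :=
      hnqG.contDiffAt.add (contDiffAt_const.mul h1).exp
    refine contDiffAt_const.mul (h2.log ?_)
    exact (add_pos_of_nonneg_of_pos (hGnn 0) (Real.exp_pos _)).ne'
  unfold lev
  show 0 ≤ lap (fun t => Psf f Λ m N (γ t)) 0
  rw [hid, PSC_lapsub _ _ 0 (contDiffAt_const.mul hA) (contDiffAt_const.mul huA),
    VAD_lapsmul _ _ 0 hA, VAD_lapsmul _ _ 0 huA, hu0, mul_zero, sub_zero]
  exact mul_nonneg (by norm_num) hL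

theorem VAD (hUN1 : UN1_stmt) (hMAU : MAU_stmt) (hCHN : CHN_stmt) (hLSE : LSE_stmt) (hVSA : VSA_stmt) :
    VAD_stmt := by
  intro d f U hd hU
  obtain ⟨C0, hC0, -, -, hpq0, -⟩ := hUN1 d f U hd hU
  obtain ⟨C, hC, hV⟩ := hVSA d f U hd hU
  have hpq : ∀ n : ℕ, ∀ Z ∈ cone U, 0 < pq (It f n Z) :=
    fun n Z hZ => (hpq0 n Z ⟨hZ.1, subset_closure hZ.2⟩).1
  refine ⟨C, hC, ?_⟩
  intro Λ m N hΛ hmN
  refine ⟨?_, ?_, ?_, ?_⟩
  · have h1 : ContDiff ℝ ∞ fun Z : E3 => nq Z :=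
      PSC_nqs (G := fun Z => Z) fun i => contDiff_apply ℂ ℂ i
    have h2 := VAD_sums f m
    have h3 := VAD_uns f U N (hpq N)
    have h4 : ContDiffOn ℝ ∞ (hop f m N) (cone U) :=
      (h1.mul h2).contDiffOn.mul ((contDiffOn_const.mul h3).neg.exp)
    have h5 : ContDiffOn ℝ ∞ (fun Z => Real.log (hop f m N Z + Real.exp (-(Λ * m)))) (cone U) :=
      (h4.add contDiffOn_const).log fun Z _ =>
        (add_pos_of_nonneg_of_pos (VAD_hopnn f m N Z) (Real.exp_pos _)).ne'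
    exact h5
  · intro Z hZ
    exact (hV Λ m 0 N hΛ hmN Z hZ 0).2.2.2.1
  · intro Z hZ c hc
    show Real.log (hop f m N (c • Z) + Real.exp (-(Λ * m))) = _
    rw [VAD_hophom f hd m N c hc Z (hpq N Z hZ)]
    rfl
  · intro Z hZ E hE
    exact VAD_levi hLSE f U hU.1.1 m N Λ (hpq N) Z hZ E hE

end Pool.Agent.P2V
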