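import Pool.Agent.helper83.P2.SpecV
import Pool.Agent.helper60.P2.DCO

/-!
# Row p2:VGL (adapted from helper60's DCO)
-/

set_option autoImplicit false

open scoped ContDiff Topology
open MeasureTheory Filter Set Metric MvPolynomial Pool.Agent.helper37.QA Pool.Agent.P2

namespace Pool.Agent.P2V

theorem VGL_gen (hVC2 : VC2_stmt) (hCHN : CHN_stmt) (hUNH : UNH_stmt) (hUN1 : UN1_stmt)
    (hDMS : DMS_stmt) (hRAD : RAD_stmt) :
  ∀ (d : ℕ) (f : Endo 2 d) (U : Set (PP 2)) (r : ℝ), 2 ≤ d → Good0 f U → 0 < r → r ≤ 1 / 100 →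
    Rad r (f.map '' closure U) U → ∃ C1 : ℝ, 1 ≤ C1 ∧
    ∀ (N : ℕ) (Ψ : E3 → ℝ) (B δ : ℝ) (K : ℂ → ℝ) (Z : ℂ → E3) (A : M3) (i j : Fin 3), Adm f U N Ψ B →
      1 ≤ B → Dsc (f.map '' closure U) Z → C1 ≤ mass f N Z → Near (r / 4) A → 0 < δ → δ ≤ r / 64 →
      Kr (r / 8) δ K →
      |(∫ v, phr (r / 8) v * Jf f N Ψ (fun z => mv (adE A i j v) (Z z))) -
        (∫ v, phr δ v * Jf f N Ψ (fun z => mv (adE A i j v) (Z z))) -
        (mass f N Z)⁻¹ * ∫ v, K v * ∫ z, eta z ^ 2 * en f N Ψ (mv (adE A i j v) (Z z))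
          (Pi.single i (Z z j)) (mv (adE A i j v) (deriv Z z))| ≤ C1 * B * (mass f N Z) ^ (-(1 / 2) : ℝ) := by
  intro d f U r hd hG hr hr1 hRd
  obtain ⟨CU, hCU0, -, -, hpq, -⟩ := hUN1 d f U hd hG
  obtain ⟨CH, α, hCH0, hα0, hα1, hH⟩ := hUNH d f U hd hG
  obtain ⟨CD, hCD0, hD1, -, -, -⟩ := hDMS d f U r hd hG hr hr1 hRd
  obtain ⟨C1, hC10, hcore⟩ := hVC2 (2 * CH) α 2 1 (by positivity) hα0 hα1 (by norm_num) (by norm_num)
    eta DCO_eta_cd DCO_eta_ts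
  obtain ⟨-, hnorm, -, -⟩ := hRAD
  refine ⟨1 + 3 * CD + 2 * C1, by linarith, ?_⟩
  intro N Ψ B δ K Z A i j hΨ hB hZ hm hA hδ hδr hK
  have hm1 : 1 ≤ mass f N Z := by linarith
  have hm0 : 0 < mass f N Z := by linarith
  have hmD : CD + 1 ≤ mass f N Z := by linarith
  have hdN : 0 < (d : ℝ) ^ N := by
    have : 0 < (d : ℝ) := by exact_mod_cast (by omega : 0 < d)
    positivity
  have hr2 : ∀ s ∈ ball (0 : ℂ) (4 * (r / 8)), ‖s‖ < r / 2 := by
    intro s hs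
    rw [mem_ball_zero_iff] at hs
    linarith
  have hnear : ∀ s ∈ ball (0 : ℂ) (4 * (r / 8)), Near r (adE A i j s) := fun s hs => DCO_near hA i j (hr2 s hs)
  have hcone : ∀ s ∈ ball (0 : ℂ) (4 * (r / 8)), ∀ z ∈ ball (0 : ℂ) 1, mv (adE A i j s) (Z z) ∈ cone U :=
    fun s hs z hz => hRd _ (hnear s hs) _ (hZ.2 z hz)
  have hpos : ∀ s ∈ ball (0 : ℂ) (4 * (r / 8)), ∀ z ∈ ball (0 : ℂ) 1,
      0 < pq (It f N (mv (adE A i j s) (Z z))) :=
    fun s hs z hz => (hpq N _ (DCO_cone_mono U (hcone s hs z hz))).1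
  have hZz : ∀ z ∈ ball (0 : ℂ) 1, DifferentiableAt ℂ Z z := fun z hz =>
    hZ.1.differentiableAt (isOpen_ball.mem_nhds hz)
  have hsub : ball (0 : ℂ) (4 * (r / 8)) ×ˢ ball (0 : ℂ) 1 ⊆ univ ×ˢ ball (0 : ℂ) 1 :=
    prod_mono (subset_univ _) subset_rfl
  -- the composed function
  have hΨcd : ContDiffOn ℝ ∞ (fun p => Ψ (DCO_F A i j Z p)) (ball (0 : ℂ) (4 * (r / 8)) ×ˢ ball (0 : ℂ) 1) := by
    refine hΨ.1.comp (((DCO_F_cd hZ.1).restrict_scalars ℝ).mono hsub) ?_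
    rintro ⟨s, z⟩ ⟨hs, hz⟩
    exact hcone s hs z hz
  have hcU : IsOpen (cone U) := cone_open hG.1.1
  have hΩo : IsOpen (ball (0 : ℂ) (4 * (r / 8)) ×ˢ ball (0 : ℂ) 1) := isOpen_ball.prod isOpen_ball
  have hFd : DifferentiableOn ℂ (DCO_F A i j Z) (ball (0 : ℂ) (4 * (r / 8)) ×ˢ ball (0 : ℂ) 1) := by
    rintro ⟨s, z⟩ ⟨hs, hz⟩
    exact (DCO_F_fd (hZz z hz)).1.differentiableWithinAt
  have hlevE : ∀ s ∈ ball (0 : ℂ) (4 * (r / 8)), ∀ z ∈ ball (0 : ℂ) 1,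
      lev (fun p => Ψ (DCO_F A i j Z p)) (s, z) (P2.ev (DCO_P f N 0 A i j Z) (DCO_P f N 1 A i j Z) (s, z)) =
        lev Ψ (mv (adE A i j s) (Z z))
          (cc f N (mv (adE A i j s) (Z z)) (Pi.single i (Z z j)) • mv (adE A i j s) (deriv Z z) -
            cc f N (mv (adE A i j s) (Z z)) (mv (adE A i j s) (deriv Z z)) • (Pi.single i (Z z j) : E3)) := by
    intro s hs z hz
    have h1 : ContDiffAt ℝ 2 Ψ (DCO_F A i j Z (s, z)) :=
      (hΨ.1.contDiffAt (hcU.mem_nhds (hcone s hs z hz))).of_le ENat.LEInfty.out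
    rw [hCHN.1 _ (DCO_F A i j Z) Ψ (s, z) _ hΩo hFd ⟨hs, hz⟩ h1, P2.ev, (DCO_F_fd (hZz z hz)).2,
      DCO_w1 f N (hZz z hz), DCO_w2 f N (hZz z hz), neg_smul, ← sub_eq_add_neg]
    rfl
  have hin : ∀ (g : ℂ → ℝ), (∫ z, eta z ^ 2 * g z) = ∫ z in ball (0 : ℂ) 1, eta z ^ 2 * g z := by
    intro g
    symm
    refine setIntegral_eq_integral_of_forall_compl_eq_zero fun z hz => ?_
    rw [DCO_eta_zero fun h => hz (DCO_cb h)]
    norm_num
  have hcong : ∀ g h : ℂ → ℝ, (∀ z ∈ ball (0 : ℂ) 1, g z = h z) → (∫ z, eta z ^ 2 * g z) = ∫ z, eta z ^ 2 * h z := by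
    intro g h hgh
    rw [hin g, hin h]
    exact setIntegral_congr_fun measurableSet_ball fun z hz => by
      show eta z ^ 2 * g z = eta z ^ 2 * h z
      rw [hgh z hz]
  -- masses
  have hM : ∀ s : ℂ, (∫ z, eta z ^ 2 * ta (DCO_P f N 0 A i j Z) (DCO_P f N 1 A i j Z) ((d : ℝ) ^ N) (s, z)) =
      mass f N (fun z => mv (adE A i j s) (Z z)) := by
    intro s
    exact hcong _ _ fun z hz => DCO_ta f N (hZz z hz)
  have hJn : ∀ s : ℂ, (∫ z, eta z ^ 2 * (Ψ (DCO_F A i j Z (s, z)) *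
      ta (DCO_P f N 0 A i j Z) (DCO_P f N 1 A i j Z) ((d : ℝ) ^ N) (s, z))) =
      ∫ z, eta z ^ 2 * (Ψ (mv (adE A i j s) (Z z)) * tau f N (fun z => mv (adE A i j s) (Z z)) z) := by
    intro s
    refine hcong _ _ fun z hz => ?_
    rw [DCO_ta f N (hZz z hz)]
    rfl
  have hMd : ∀ s ∈ ball (0 : ℂ) (4 * (r / 8)),
      |mass f N (fun z => mv (adE A i j s) (Z z)) - mass f N Z| ≤ CD :=
    fun s hs => hD1 N Z (adE A i j s) hZ (hnear s hs)
  have hMpos : ∀ s ∈ ball (0 : ℂ) (4 * (r / 8)), 0 < mass f N (fun z => mv (adE A i j s) (Z z)) := by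
    intro s hs
    have := abs_le.1 (hMd s hs)
    linarith [this.1]
  have htac := DCO_ta_cont f N (A := A) (i := i) (j := j) hZ.1 hpos
  have hgc : ContinuousOn (fun p => Ψ (DCO_F A i j Z p) *
      ta (DCO_P f N 0 A i j Z) (DCO_P f N 1 A i j Z) ((d : ℝ) ^ N) p)
      (ball (0 : ℂ) (4 * (r / 8)) ×ˢ ball (0 : ℂ) 1) := hΨcd.continuousOn.mul htac
  have hJc : ContinuousOn (fun s => Jf f N Ψ (fun z => mv (adE A i j s) (Z z))) (ball (0 : ℂ) (4 * (r / 8))) := by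
    have h1 := DCO_par isOpen_ball hgc
    have h2 := DCO_par isOpen_ball htac
    refine (h1.div h2 fun s hs => ?_).congr fun s hs => ?_
    · rw [hM s]
      exact (hMpos s hs).ne'
    · simp only [Pi.div_apply]
      rw [hM s, hJn s]
      rfl
  have hJb : ∀ s ∈ ball (0 : ℂ) (4 * (r / 8)), |Jf f N Ψ (fun z => mv (adE A i j s) (Z z))| ≤ B := by
    intro s hs
    have hslice : ContinuousOn (fun z => (s, z)) (ball (0 : ℂ) 1) := by fun_prop
    have h0 : ContinuousOn (fun z => ta (DCO_P f N 0 A i j Z) (DCO_P f N 1 A i j Z) ((d : ℝ) ^ N) (s, z))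
        (ball (0 : ℂ) 1) := htac.comp hslice fun z hz => ⟨hs, hz⟩
    have h1 : Integrable fun z => eta z ^ 2 *
        ta (DCO_P f N 0 A i j Z) (DCO_P f N 1 A i j Z) ((d : ℝ) ^ N) (s, z) := DCO_int h0
    have h2 : |∫ z, eta z ^ 2 * (Ψ (DCO_F A i j Z (s, z)) *
        ta (DCO_P f N 0 A i j Z) (DCO_P f N 1 A i j Z) ((d : ℝ) ^ N) (s, z))| ≤
        ∫ z, B * (eta z ^ 2 * ta (DCO_P f N 0 A i j Z) (DCO_P f N 1 A i j Z) ((d : ℝ) ^ N) (s, z)) := by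
      rw [← Real.norm_eq_abs]
      refine norm_integral_le_of_norm_le (h1.const_mul B) (Filter.Eventually.of_forall fun z => ?_)
      by_cases hz : z ∈ ball (0 : ℂ) 1
      · have h3 : |Ψ (DCO_F A i j Z (s, z))| ≤ B := hΨ.2.1 _ (hcone s hs z hz)
        have h4 : 0 ≤ ta (DCO_P f N 0 A i j Z) (DCO_P f N 1 A i j Z) ((d : ℝ) ^ N) (s, z) := by
          rw [DCO_ta f N (hZz z hz)]
          exact DCO_tau_nn f N _ z
        rw [Real.norm_eq_abs, abs_mul, abs_mul, abs_of_nonneg h4, abs_of_nonneg (sq_nonneg (eta z))]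
        calc eta z ^ 2 * (|Ψ (DCO_F A i j Z (s, z))| * _) ≤ eta z ^ 2 * (B * _) := by gcongr
          _ = _ := by ring
      · rw [DCO_eta_zero fun h => hz (DCO_cb h)]
        simp
    rw [hJn s, integral_const_mul, hM s] at h2
    rw [Jf, abs_div, abs_of_pos (hMpos s hs), div_le_iff₀ (hMpos s hs)]
    exact h2
  have hcmp : ∀ s ∈ ball (0 : ℂ) (4 * (r / 8)),
      |(mass f N Z)⁻¹ * (∫ z, eta z ^ 2 * (Ψ (DCO_F A i j Z (s, z)) *
        ta (DCO_P f N 0 A i j Z) (DCO_P f N 1 A i j Z) ((d : ℝ) ^ N) (s, z))) -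
        Jf f N Ψ (fun z => mv (adE A i j s) (Z z))| ≤ B * CD * (mass f N Z)⁻¹ := by
    intro s hs
    have hMs := hMpos s hs
    have h1 : (∫ z, eta z ^ 2 * (Ψ (DCO_F A i j Z (s, z)) *
        ta (DCO_P f N 0 A i j Z) (DCO_P f N 1 A i j Z) ((d : ℝ) ^ N) (s, z))) =
        Jf f N Ψ (fun z => mv (adE A i j s) (Z z)) * mass f N (fun z => mv (adE A i j s) (Z z)) := by
      rw [hJn s, Jf, div_mul_cancel₀ _ hMs.ne']
    rw [h1]
    have h2 : (mass f N Z)⁻¹ * (Jf f N Ψ (fun z => mv (adE A i j s) (Z z)) *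
        mass f N (fun z => mv (adE A i j s) (Z z))) - Jf f N Ψ (fun z => mv (adE A i j s) (Z z)) =
        Jf f N Ψ (fun z => mv (adE A i j s) (Z z)) *
          (mass f N (fun z => mv (adE A i j s) (Z z)) - mass f N Z) * (mass f N Z)⁻¹ := by
      field_simp
    rw [h2, abs_mul, abs_mul, abs_of_pos (inv_pos.2 hm0)]
    have h3 := hJb s hs
    have h4 := hMd s hs
    gcongr
  -- the hypotheses of CORE
  have hP : ∀ k : Fin 3, DifferentiableOn ℂ (DCO_P f N k A i j Z)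
      (ball (0 : ℂ) (4 * (r / 8)) ×ˢ ball (0 : ℂ) 1) := by
    rintro k ⟨s, z⟩ ⟨hs, hz⟩
    exact (DCO_P_fd f N k (hZz z hz)).1.differentiableWithinAt
  have hne : ∀ p ∈ ball (0 : ℂ) (4 * (r / 8)) ×ˢ ball (0 : ℂ) 1,
      DCO_P f N 0 A i j Z p ≠ 0 ∨ DCO_P f N 1 A i j Z p ≠ 0 := by
    rintro ⟨s, z⟩ ⟨hs, hz⟩
    by_contra hcon
    have hcon' : DCO_P f N 0 A i j Z (s, z) = 0 ∧ DCO_P f N 1 A i j Z (s, z) = 0 := by
      constructor
      · by_contra h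
        exact hcon (Or.inl h)
      · by_contra h
        exact hcon (Or.inr h)
    have h1 := hpos s hs z hz
    have h2 : pq (It f N (mv (adE A i j s) (Z z))) =
        Complex.normSq (DCO_P f N 0 A i j Z (s, z)) + Complex.normSq (DCO_P f N 1 A i j Z (s, z)) := rfl
    rw [h2, hcon'.1, hcon'.2, map_zero, add_zero] at h1
    exact lt_irrefl _ h1
  have hHol : ∀ s ∈ ball (0 : ℂ) (4 * (r / 8)), ∀ s' ∈ ball (0 : ℂ) (4 * (r / 8)), ∀ z ∈ ball (0 : ℂ) 1,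
      |uu (DCO_P f N 0 A i j Z) (DCO_P f N 1 A i j Z) ((d : ℝ) ^ N) (s, z) -
        uu (DCO_P f N 0 A i j Z) (DCO_P f N 1 A i j Z) ((d : ℝ) ^ N) (s', z)| ≤ 2 * CH * ‖s - s'‖ ^ α := by
    intro s hs s' hs' z hz
    have h0 : ∀ t : ℂ, uu (DCO_P f N 0 A i j Z) (DCO_P f N 1 A i j Z) ((d : ℝ) ^ N) (t, z) =
        un f N (mv (adE A i j t) (Z z)) := fun t => rfl
    rw [h0, h0]
    have hn1 : Near (1 / 100) (adE A i j s) := fun k l => lt_of_lt_of_le (hnear s hs k l) hr1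
    have h1 := (hnorm _ hn1 (Z z) (Z z)).1
    have h2 : ‖mv (adE A i j s) (Z z) - mv (adE A i j s') (Z z)‖ ≤ ‖s - s'‖ * ‖Z z‖ := by
      rw [DCO_mv, DCO_mv, add_sub_add_left_eq_sub, ← sub_smul, norm_smul]
      gcongr
      refine (pi_norm_le_iff_of_nonneg (norm_nonneg _)).2 fun k => ?_
      by_cases hk : k = i
      · subst hk
        rw [Pi.single_eq_same]
        exact norm_le_pi_norm (Z z) j
      · rw [Pi.single_eq_of_ne hk, norm_zero]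
        exact norm_nonneg _
    have h3 : ‖s - s'‖ ≤ 1 / 100 := by
      have := norm_sub_le s s'
      linarith [hr2 s hs, hr2 s' hs']
    have hW0 : mv (adE A i j s) (Z z) ≠ 0 := (hcone s hs z hz).1
    have hWn : 0 < ‖mv (adE A i j s) (Z z)‖ := norm_pos_iff.2 hW0
    have h4 : ‖mv (adE A i j s) (Z z) - mv (adE A i j s') (Z z)‖ ≤ 2 * ‖s - s'‖ * ‖mv (adE A i j s) (Z z)‖ := by
      have h5 : ‖Z z‖ ≤ 2 * ‖mv (adE A i j s) (Z z)‖ := by linarith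
      calc _ ≤ ‖s - s'‖ * ‖Z z‖ := h2
        _ ≤ ‖s - s'‖ * (2 * ‖mv (adE A i j s) (Z z)‖) := by gcongr
        _ = _ := by ring
    have h6 : ‖mv (adE A i j s) (Z z) - mv (adE A i j s') (Z z)‖ ≤ (1 / 2) * ‖mv (adE A i j s) (Z z)‖ := by
      refine h4.trans ?_
      gcongr
      linarith
    refine (hH N _ (hcone s hs z hz) _ (hcone s' hs' z hz) h6).trans ?_
    have h7 : ‖mv (adE A i j s) (Z z) - mv (adE A i j s') (Z z)‖ / ‖mv (adE A i j s) (Z z)‖ ≤ 2 * ‖s - s'‖ := by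
      rw [div_le_iff₀ hWn]
      exact h4
    have h8 : (‖mv (adE A i j s) (Z z) - mv (adE A i j s') (Z z)‖ / ‖mv (adE A i j s) (Z z)‖) ^ α ≤
        2 * ‖s - s'‖ ^ α := by
      calc _ ≤ (2 * ‖s - s'‖) ^ α := Real.rpow_le_rpow (by positivity) h7 hα0.le
        _ = 2 ^ α * ‖s - s'‖ ^ α := Real.mul_rpow (by norm_num) (norm_nonneg _)
        _ ≤ 2 * ‖s - s'‖ ^ α := by
          have h9 : (2 : ℝ) ^ α ≤ 2 ^ (1 : ℝ) := Real.rpow_le_rpow_of_exponent_le (by norm_num) hα1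
          rw [Real.rpow_one] at h9
          have h10 : 0 ≤ ‖s - s'‖ ^ α := Real.rpow_nonneg (norm_nonneg _) _
          gcongr
    calc CH * (‖mv (adE A i j s) (Z z) - mv (adE A i j s') (Z z)‖ / ‖mv (adE A i j s) (Z z)‖) ^ α
        ≤ CH * (2 * ‖s - s'‖ ^ α) := by gcongr
      _ = _ := by ring
  have hballs : ball (0 : ℂ) (r / 8) ⊆ ball (0 : ℂ) (4 * (r / 8)) := ball_subset_ball (by linarith)
  have hmass : ∀ s ∈ ball (0 : ℂ) (r / 8), (mass f N Z)⁻¹ *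
      (∫ z, eta z ^ 2 * ta (DCO_P f N 0 A i j Z) (DCO_P f N 1 A i j Z) ((d : ℝ) ^ N) (s, z)) ≤ 2 := by
    intro s hs
    rw [hM s, inv_mul_le_iff₀ hm0]
    have := abs_le.1 (hMd s (hballs hs))
    linarith [this.2]
  have hΨb : ∀ p ∈ ball (0 : ℂ) (4 * (r / 8)) ×ˢ ball (0 : ℂ) 1, |(fun p => Ψ (DCO_F A i j Z p)) p| ≤ B := by
    rintro ⟨s, z⟩ ⟨hs, hz⟩
    exact hΨ.2.1 _ (hcone s hs z hz)
  have key := hcore (r / 8) δ ((d : ℝ) ^ N) (mass f N Z)⁻¹ B K (DCO_P f N 0 A i j Z) (DCO_P f N 1 A i j Z)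
    (fun p => Ψ (DCO_F A i j Z p)) (by positivity) (by linarith) hδ (by linarith) hK hdN (inv_pos.2 hm0)
    (by linarith) (hP 0) (hP 1) hne hHol hmass hΨcd hΨb
  have hwi : 0 < (mass f N Z)⁻¹ := inv_pos.2 hm0
  -- the energy
  have hE : (∫ s, K s * ((mass f N Z)⁻¹ * ∫ z, eta z ^ 2 *
      (lev (fun p => Ψ (DCO_F A i j Z p)) (s, z) (P2.ev (DCO_P f N 0 A i j Z) (DCO_P f N 1 A i j Z) (s, z)) *
        om (DCO_P f N 0 A i j Z) (DCO_P f N 1 A i j Z) (s, z) / (2 * (d : ℝ) ^ N)))) =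
      (mass f N Z)⁻¹ * ∫ s, K s *
        ∫ z, eta z ^ 2 * en f N Ψ (mv (adE A i j s) (Z z)) (Pi.single i (Z z j)) (mv (adE A i j s) (deriv Z z)) := by
    rw [← integral_const_mul]
    refine integral_congr_ae (Filter.Eventually.of_forall fun s => ?_)
    show K s * ((mass f N Z)⁻¹ * _) = (mass f N Z)⁻¹ * (K s * _)
    by_cases hs : s ∈ ball (0 : ℂ) (4 * (r / 8))
    · have h1 := hcong (fun z => lev (fun p => Ψ (DCO_F A i j Z p)) (s, z)
          (P2.ev (DCO_P f N 0 A i j Z) (DCO_P f N 1 A i j Z) (s, z)) *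
          om (DCO_P f N 0 A i j Z) (DCO_P f N 1 A i j Z) (s, z) / (2 * (d : ℝ) ^ N))
        (fun z => en f N Ψ (mv (adE A i j s) (Z z)) (Pi.single i (Z z j)) (mv (adE A i j s) (deriv Z z))) ?_
      · rw [← h1]
        ring
      · intro z hz
        show lev (fun p => Ψ (DCO_F A i j Z p)) (s, z)
          (P2.ev (DCO_P f N 0 A i j Z) (DCO_P f N 1 A i j Z) (s, z)) *
          om (DCO_P f N 0 A i j Z) (DCO_P f N 1 A i j Z) (s, z) / (2 * (d : ℝ) ^ N) = _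
        rw [hlevE s hs z hz, en]
        have h2 : om (DCO_P f N 0 A i j Z) (DCO_P f N 1 A i j Z) (s, z) =
            ((pq (It f N (mv (adE A i j s) (Z z)))) ^ 2)⁻¹ := by
          simp only [om, pq, DCO_P, DCO_F]
        rw [h2]
        simp only [div_eq_mul_inv, mul_inv]
        ring
    · have h3 : K s = 0 := by
        refine hK.2.1 s ?_
        rw [mem_ball_zero_iff, not_lt] at hs
        linarith
      rw [h3]
      ring
  rw [hE] at key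
  -- the averages
  have hF : ∀ σ : ℝ, 0 < σ → σ ≤ r / 8 →
      |(∫ s, phr σ s * ((mass f N Z)⁻¹ * ∫ z, eta z ^ 2 * (Ψ (DCO_F A i j Z (s, z)) *
        ta (DCO_P f N 0 A i j Z) (DCO_P f N 1 A i j Z) ((d : ℝ) ^ N) (s, z)))) -
        ∫ s, phr σ s * Jf f N Ψ (fun z => mv (adE A i j s) (Z z))| ≤ B * CD * (mass f N Z)⁻¹ := by
    intro σ hσ hσr
    have hphr0 : ∀ s : ℂ, s ∉ ball (0 : ℂ) (4 * (r / 8)) → phr σ s = 0 := by
      intro s hs
      refine DCO_phr_zero hσ fun h => hs ?_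
      exact closedBall_subset_ball (by linarith) h
    have hint : ∀ g : ℂ → ℝ, ContinuousOn g (ball (0 : ℂ) (4 * (r / 8))) → Integrable fun s => phr σ s * g s := by
      intro g hg
      have h1 : Continuous fun s => phr σ s * g s := by
        rw [← continuousOn_univ]
        refine DCO_contOn (T := closedBall (0 : ℂ) σ) isOpen_ball isClosed_closedBall ?_ (DCO_phr_c _) ?_ hg
        · rintro s ⟨_, hs⟩
          exact closedBall_subset_ball (by linarith) hs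
        · intro s hs
          exact DCO_phr_zero hσ hs
      refine h1.integrable_of_hasCompactSupport ?_
      refine HasCompactSupport.intro (isCompact_closedBall (0 : ℂ) σ) fun s hs => ?_
      rw [DCO_phr_zero hσ hs, zero_mul]
    have hIL := hint (fun s => (mass f N Z)⁻¹ * ∫ z, eta z ^ 2 * (Ψ (DCO_F A i j Z (s, z)) *
      ta (DCO_P f N 0 A i j Z) (DCO_P f N 1 A i j Z) ((d : ℝ) ^ N) (s, z)))
      (continuousOn_const.mul (DCO_par isOpen_ball hgc))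
    have hIR := hint _ hJc
    have hb0 : 0 ≤ B * CD * (mass f N Z)⁻¹ := by positivity
    have hI2 : Integrable fun s => phr σ s * (B * CD * (mass f N Z)⁻¹) :=
      (DCO_phr_int σ hσ).mul_const _
    rw [← integral_sub hIL hIR, ← Real.norm_eq_abs]
    refine (norm_integral_le_of_norm_le hI2 (Filter.Eventually.of_forall fun s => ?_)).trans ?_
    · rw [← mul_sub, Real.norm_eq_abs, abs_mul, abs_of_nonneg (DCO_phr_nn σ s)]
      by_cases hs : s ∈ ball (0 : ℂ) (4 * (r / 8))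
      · exact mul_le_mul_of_nonneg_left (hcmp s hs) (DCO_phr_nn σ s)
      · rw [hphr0 s hs, zero_mul, zero_mul]
    · rw [integral_mul_const]
      calc (∫ s, phr σ s) * (B * CD * (mass f N Z)⁻¹) ≤ 1 * (B * CD * (mass f N Z)⁻¹) :=
            mul_le_mul_of_nonneg_right (DCO_phr_le σ hσ) hb0
        _ = _ := one_mul _
  have hF1 := hF (r / 8) (by positivity) le_rfl
  have hF2 := hF δ hδ (by linarith)
  -- error terms
  have hw : (mass f N Z)⁻¹ ≤ (mass f N Z) ^ (-(1 / 2) : ℝ) := by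
    rw [← Real.rpow_neg_one]
    exact Real.rpow_le_rpow_of_exponent_le hm1 (by norm_num)
  have hRα : (r / 8) ^ α ≤ 1 := Real.rpow_le_one (by positivity) (by linarith) hα0.le
  have hRα0 : 0 ≤ (r / 8) ^ α := Real.rpow_nonneg (by positivity) _
  have he1 : (mass f N Z)⁻¹ * (r / 8) ^ α ≤ (mass f N Z)⁻¹ := by
    calc (mass f N Z)⁻¹ * (r / 8) ^ α ≤ (mass f N Z)⁻¹ * 1 := by gcongr
      _ = _ := mul_one _
  have he2 : ((mass f N Z)⁻¹ * (r / 8) ^ α) ^ (1 / 2 : ℝ) ≤ (mass f N Z) ^ (-(1 / 2) : ℝ) := by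
    calc ((mass f N Z)⁻¹ * (r / 8) ^ α) ^ (1 / 2 : ℝ) ≤ ((mass f N Z)⁻¹) ^ (1 / 2 : ℝ) :=
          Real.rpow_le_rpow (by positivity) he1 (by norm_num)
      _ = _ := by rw [Real.inv_rpow hm0.le, Real.rpow_neg hm0.le]
  have hq0 : 0 ≤ (mass f N Z) ^ (-(1 / 2) : ℝ) := Real.rpow_nonneg hm0.le _
  have hB0 : 0 ≤ B := by linarith
  have he3 : C1 * B * ((mass f N Z)⁻¹ * (r / 8) ^ α + ((mass f N Z)⁻¹ * (r / 8) ^ α) ^ (1 / 2 : ℝ)) ≤
      C1 * B * (2 * (mass f N Z) ^ (-(1 / 2) : ℝ)) := by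
    refine mul_le_mul_of_nonneg_left ?_ (by positivity)
    linarith
  have he4 : B * CD * (mass f N Z)⁻¹ ≤ B * CD * (mass f N Z) ^ (-(1 / 2) : ℝ) :=
    mul_le_mul_of_nonneg_left hw (by positivity)
  have he5 : (1 + 3 * CD + 2 * C1) * B * (mass f N Z) ^ (-(1 / 2) : ℝ) =
      B * (mass f N Z) ^ (-(1 / 2) : ℝ) + CD * (B * (mass f N Z) ^ (-(1 / 2) : ℝ)) +
        2 * (B * CD * (mass f N Z) ^ (-(1 / 2) : ℝ)) + C1 * B * (2 * (mass f N Z) ^ (-(1 / 2) : ℝ)) := by ring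
  have he6 : 0 ≤ B * (mass f N Z) ^ (-(1 / 2) : ℝ) := by positivity
  have he7 : 0 ≤ CD * (B * (mass f N Z) ^ (-(1 / 2) : ℝ)) := by positivity
  rw [he5, abs_le]
  rw [abs_le] at key hF1 hF2
  obtain ⟨k1, k2⟩ := key
  obtain ⟨a1, a2⟩ := hF1
  obtain ⟨b1, b2⟩ := hF2
  constructor <;> linarith

theorem VGL (hVC2 : VC2_stmt) (hCHN : CHN_stmt) (hUNH : UNH_stmt) (hUN1 : UN1_stmt) (_hMSS : MSS_stmt)
    (hDMS : DMS_stmt) (hRAD : RAD_stmt) : VGL_stmt := by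
  intro d f U r hd hG hr hr1 hRd
  obtain ⟨C1, hC1, h⟩ := VGL_gen hVC2 hCHN hUNH hUN1 hDMS hRAD d f U r hd hG hr hr1 hRd
  refine ⟨C1, hC1, ?_⟩
  intro N Ψ B δ K Z ι hΨ hB hZ hm hδ hδr hK
  have hA : Near (r / 4) one3 := by
    intro k l
    rw [sub_self, norm_zero]
    positivity
  exact h N Ψ B δ K Z one3 2 ι.castSucc hΨ hB hZ hm hA hδ hδr hK

end Pool.Agent.P2V
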